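import Pool.Agent.BKU.St

/-!
# BKU, module AR1: arithmetic case analysis
-/

set_option autoImplicit false

namespace Pool.Agent.BKU

theorem thm_AR1 : St_GB → St_AR1 := by
  intro hGB k h b c J γ ν lo hi hh hk hP
  obtain ⟨hm0, hm8, hmu, g1, g2, gk, q1, -, qk⟩ := hGB k h hh hk
  obtain ⟨hJ1, hJb, hbJ, hg1, hn1, hgn, hcc, -, -, -⟩ := hP
  have hH : (1 : ℝ) ≤ (h : ℝ) := by exact_mod_cast hh
  have hK : 100 * ((h : ℝ) + 2) ^ 2 ≤ (k : ℝ) := by exact_mod_cast hk
  obtain ⟨m, hm⟩ : ∃ m, m = mu k h := ⟨_, rfl⟩
  rw [← hm] at hm0 hm8 hmu g1 g2 gk q1 qk ⊢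
  have hkn : 900 ≤ k := by nlinarith
  have hkk : 2 * h * (h + 1) + 2 * h + 10 ≤ k := by nlinarith
  have hkr : 2 * (h : ℝ) * (h + 1) + 2 * h + 10 ≤ (k : ℝ) := by exact_mod_cast hkk
  have hmm : ∀ n : ℕ, mm k m n ≤ 2 * k - 2 * m := by
    intro n
    unfold mm
    split_ifs <;> nlinarith
  have hbk : b + 1 ≤ k := by omega
  have hbr : (b : ℝ) ≤ (k : ℝ) - 1 := by
    have : ((b + 1 : ℕ) : ℝ) ≤ k := by exact_mod_cast hbk
    push_cast at this
    linarith
  have hgb1 : 1 ≤ b → (k : ℝ) + 1 - m ≤ gg k m b := fun h1 => g1 b (by exact_mod_cast h1) hbr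
  have hgb2 : 2 ≤ b → 2 * (k : ℝ) - 2 * m ≤ gg k m b := fun h1 => g2 b (by exact_mod_cast h1) hbr
  have hcr : c + 1 ≤ k → (c : ℝ) ≤ (k : ℝ) - 1 := by
    intro h1
    have : ((c + 1 : ℕ) : ℝ) ≤ k := by exact_mod_cast h1
    push_cast at this
    linarith
  have hgc1 : 1 ≤ c → c + 1 ≤ k → (k : ℝ) + 1 - m ≤ gg k m c := fun h1 h2 =>
    g1 c (by exact_mod_cast h1) (hcr h2)
  have hgc2 : 2 ≤ c → c + 1 ≤ k → 2 * (k : ℝ) - 2 * m ≤ gg k m c := fun h1 h2 =>
    g2 c (by exact_mod_cast h1) (hcr h2)
  have hg0 : gg k m ((0 : ℕ) : ℝ) = 0 := by unfold gg; simp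
  have hJr : (J : ℝ) ≤ h + 1 := by exact_mod_cast hJ1
  have hJ0 : (0 : ℝ) ≤ J := Nat.cast_nonneg J
  have hnr : (ν : ℝ) ≤ h := by exact_mod_cast hn1
  have hn0 : (0 : ℝ) ≤ ν := Nat.cast_nonneg ν
  have hnJ : (ν : ℝ) * J ≤ h * (h + 1) := mul_le_mul hnr hJr hJ0 (by linarith)
  -- one part empty
  have hone : ∀ n : ℕ, n + 1 ≤ k → mm k m n ≤ gg k m n := by
    intro n hn
    have hnn : (n : ℝ) ≤ (k : ℝ) - 1 := by
      have : ((n + 1 : ℕ) : ℝ) ≤ k := by exact_mod_cast hn
      push_cast at this
      linarith
    rcases Nat.lt_or_ge n 2 with h2 | h2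
    · interval_cases n
      · rw [hg0]
        unfold mm
        simp
      · have := g1 ((1 : ℕ) : ℝ) (by norm_num) hnn
        unfold mm
        simpa using this
    · exact (hmm n).trans (g2 n (by exact_mod_cast h2) hnn)
  -- the second bound for b
  have hqb : 1 ≤ b → (k : ℝ) - 1 - m ≤ b * (k - b - m) + 2 * J ∧
      (k : ℝ) - 1 - 2 * h - m ≤ b * (k - b - m) := by
    intro h1
    have hb1 : (1 : ℝ) ≤ b := by exact_mod_cast h1
    rcases Nat.lt_or_ge (b + 1) k with h2 | h2
    · have h3 : (b : ℝ) ≤ (k : ℝ) - 2 := by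
        have : ((b + 2 : ℕ) : ℝ) ≤ k := by exact_mod_cast h2
        push_cast at this
        linarith
      have h4 := q1 b hb1 h3
      constructor <;> linarith
    · have h3 : (b : ℝ) = (k : ℝ) - 1 := by
        have h4 : b + 1 = k := le_antisymm hbk h2
        have h5 : ((b + 1 : ℕ) : ℝ) = k := by exact_mod_cast h4
        push_cast at h5
        linarith
      have hJe : J = h + 1 := by omega
      have hJe' : (J : ℝ) = h + 1 := by exact_mod_cast hJe
      have h6 : (b : ℝ) * (k - b - m) = (k : ℝ) - 1 - 2 * h - m := by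
        rw [h3]
        linear_combination qk
      rw [h6, hJe']
      constructor <;> linarith
  have hgbq : gg k m b = b * (k - b - m) + 2 * b := by
    unfold gg
    ring
  rcases Nat.eq_zero_or_pos γ with hγ | hγ
  · subst hγ
    have hT : TT k m b c J ((0 : ℕ) : ℝ) ν = gg k m b + gg k m c - 2 * (ν * J) := by
      unfold TT
      push_cast
      ring
    rw [hT]
    have hck : c + 1 ≤ k := by omega
    rcases Nat.eq_zero_or_pos b with hb | hb
    · subst hb
      have hJz : J = 0 := by omega
      subst hJz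
      rw [hg0, zero_add]
      have := hone c hck
      simpa using this
    · rcases Nat.eq_zero_or_pos c with hc | hc
      · subst hc
        have hνz : ν = 0 := by omega
        subst hνz
        rw [hg0, add_zero]
        have := hone b hbk
        simpa using this
      · have k1 := hgb1 hb
        have k2 := hgc1 hc hck
        have k3 := hmm (b + c)
        rcases Nat.lt_or_ge ν 2 with hν | hν
        · have hνJ : (ν : ℝ) * J ≤ J := by
            have : (ν : ℝ) ≤ 1 := by
              have : ν ≤ 1 := by omega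
              exact_mod_cast this
            nlinarith
          rcases Nat.lt_or_ge b 2 with hb2 | hb2
          · have hJ1' : (J : ℝ) ≤ 1 := by
              have : J ≤ 1 := by omega
              exact_mod_cast this
            linarith
          · have k4 := hgb2 hb2
            linarith
        · have k4 := hgc2 (by omega) hck
          linarith
  · have hγ1 : γ = 1 := by omega
    subst hγ1
    have hT : TT k m b c J ((1 : ℕ) : ℝ) ν = b * (k - b - m) + 2 * J + (gg k m c + 2 * ν) - 2 * (ν * J) := by
      unfold TT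
      rw [hgbq]
      push_cast
      ring
    rw [hT]
    rcases Nat.eq_zero_or_pos ν with hν | hν
    · subst hν
      have hck : c + 1 ≤ k := by omega
      rcases Nat.eq_zero_or_pos b with hb | hb
      · subst hb
        have hJz : J = 0 := by omega
        subst hJz
        have := hone c hck
        simpa using this
      · have k1 := (hqb hb).1
        have k2 := hgc1 (by omega) hck
        have k3 := hmm (b + c)
        push_cast
        linarith
    · have hgc : 2 * (k : ℝ) - 2 * m ≤ gg k m c + 2 * ν := by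
        rcases Nat.lt_or_ge c k with hck | hck
        · have k4 := hgc2 (by omega) (by omega)
          linarith
        · have hce : c = k := by omega
          have hνe : ν = h := by omega
          rw [hce, hνe, gk]
          linarith
      have k3 := hmm (b + c)
      rcases Nat.eq_zero_or_pos b with hb | hb
      · subst hb
        have hJz : J = 0 := by omega
        subst hJz
        push_cast
        linarith
      · have k1 := (hqb hb).2
        linarith

end Pool.Agent.BKU
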