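import Pool.Agent.BKU.St

/-!
# Campaign BKU (MP_303581_co), module AR2: arithmetic case analysis (offer 16208, helper81)

`thm_AR2 : St_GB → St_AR2`.
-/

set_option autoImplicit false

open Finset

namespace Pool.Agent.BKU

private theorem AR2_core (hGB : St_GB) {k h b c J γ ν lo hi : ℕ} (hh : 1 ≤ h) (hk : 100 * (h + 2) ^ 2 ≤ k)
    (P : Par k h b c J γ ν lo hi) (hbc : 1 ≤ b + c) (w : ℝ) (hw1 : w ≤ 2 * (b : ℝ)) (hw2 : w ≤ (k : ℝ)) :
    (k : ℝ) - 1 - mu k h ≤ TT k (mu k h) b c J γ ν - w - 2 * (γ : ℝ) := by
  obtain ⟨m0, m1, -, g1, g2, gk, e1, e2, e3⟩ := hGB k h hh hk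
  generalize mu k h = μ at *
  have hJ1 := P.J1
  have hJb := P.Jb
  have hbJ := P.bJ
  have hg1 := P.g1
  have hn1 := P.n1
  have hgn := P.gn
  have hcc := P.cc
  have hbk : b + 1 ≤ k := by omega
  have hbkR : (b : ℝ) ≤ (k : ℝ) - 1 := by
    have : ((b + 1 : ℕ) : ℝ) ≤ (k : ℝ) := Nat.cast_le.2 hbk
    push_cast at this
    linarith
  have hkR : 100 * ((h : ℝ) + 2) ^ 2 ≤ (k : ℝ) := by
    have : ((100 * (h + 2) ^ 2 : ℕ) : ℝ) ≤ (k : ℝ) := Nat.cast_le.2 hk
    push_cast at this
    linarith
  have hhR : (1 : ℝ) ≤ (h : ℝ) := by exact_mod_cast hh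
  have hJR : (J : ℝ) ≤ (h : ℝ) + 1 := by exact_mod_cast hJ1
  have hJ0 : (0 : ℝ) ≤ (J : ℝ) := Nat.cast_nonneg J
  have hb0 : (0 : ℝ) ≤ (b : ℝ) := Nat.cast_nonneg b
  have hnR : (ν : ℝ) ≤ (h : ℝ) := by exact_mod_cast hn1
  have hn0 : (0 : ℝ) ≤ (ν : ℝ) := Nat.cast_nonneg ν
  have hnJ : (ν : ℝ) * J ≤ (h : ℝ) * ((h : ℝ) + 1) := mul_le_mul hnR hJR hJ0 (by linarith)
  have hk3 : 100 * (h : ℝ) * h + 400 * h + 400 ≤ (k : ℝ) := by nlinarith
  have hh2 : (0 : ℝ) ≤ (h : ℝ) * h := by positivity
  have hc1 : 1 ≤ c → c + 1 ≤ k → (k : ℝ) + 1 - μ ≤ gg k μ c := by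
    intro h1 h2
    apply g1
    · exact_mod_cast h1
    · have : ((c + 1 : ℕ) : ℝ) ≤ (k : ℝ) := Nat.cast_le.2 h2
      push_cast at this
      linarith
  have hb2 : 2 ≤ b → 2 * (k : ℝ) - 2 * μ ≤ gg k μ b := by
    intro h1
    apply g2 _ _ hbkR
    exact_mod_cast h1
  have hgb1 : gg k μ 1 = (k : ℝ) + 1 - μ := by
    unfold gg
    ring
  have hg00 : gg k μ 0 = 0 := by
    unfold gg
    ring
  have hgb : gg k μ b = b * (k - b - μ) + 2 * b := by
    unfold gg
    ring
  unfold TT
  have hγ : γ = 0 ∨ γ = 1 := by omega
  rcases hγ with rfl | rfl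
  · -- `γ = 0`
    rcases Nat.eq_zero_or_pos ν with hν | hν
    · -- `ν = 0`
      subst hν
      rcases Nat.lt_or_ge b 2 with hb | hb
      · rcases Nat.eq_zero_or_pos b with hb' | hb'
        · subst hb'
          have h1 := hc1 (by omega) (by omega)
          have hJz : J = 0 := by omega
          subst hJz
          simp only [Nat.cast_zero, hg00] at *
          linarith
        · have hb1 : b = 1 := by omega
          subst hb1
          have h1 : 0 ≤ gg k μ c := by
            rcases Nat.eq_zero_or_pos c with hc | hc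
            · subst hc
              simp only [Nat.cast_zero, hg00]
              exact le_refl _
            · have := hc1 hc (by omega)
              linarith
          simp only [Nat.cast_zero, Nat.cast_one, hgb1] at *
          linarith
      · have h1 := hb2 hb
        have h2 : 0 ≤ gg k μ c := by
          rcases Nat.eq_zero_or_pos c with hc | hc
          · subst hc
            simp only [Nat.cast_zero, hg00]
            exact le_refl _
          · have := hc1 hc (by omega)
            linarith
        simp only [Nat.cast_zero] at *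
        linarith
    · -- `ν ≥ 1`
      have h1 := hc1 (by omega) (by omega)
      rcases Nat.lt_or_ge b 2 with hb | hb
      · rcases Nat.eq_zero_or_pos b with hb' | hb'
        · subst hb'
          have hJz : J = 0 := by omega
          subst hJz
          simp only [Nat.cast_zero, hg00] at *
          linarith
        · have hb1 : b = 1 := by omega
          subst hb1
          have hJ1' : (J : ℝ) ≤ 1 := by exact_mod_cast hJb
          have h2 : (ν : ℝ) * J ≤ (h : ℝ) * 1 := mul_le_mul hnR hJ1' hJ0 (by linarith)
          simp only [Nat.cast_zero, Nat.cast_one, hgb1] at *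
          linarith
      · have h2 := hb2 hb
        simp only [Nat.cast_zero] at *
        linarith
  · -- `γ = 1`
    rcases Nat.eq_zero_or_pos ν with hν | hν
    · -- `ν = 0`
      subst hν
      have h1 := hc1 (by omega) (by omega)
      rcases Nat.eq_zero_or_pos b with hb' | hb'
      · subst hb'
        have hJz : J = 0 := by omega
        subst hJz
        simp only [Nat.cast_zero, Nat.cast_one, hg00] at *
        linarith
      · have key : 0 ≤ (b : ℝ) * (k - b - μ) + 2 * J - w := by
          rcases Nat.lt_or_ge k (2 * b) with h2 | h2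
          · rcases Nat.lt_or_ge (b + 1) k with h3 | h3
            · have hb2' : (2 : ℝ) ≤ (b : ℝ) := by
                have : 2 ≤ b := by
                  have : 900 ≤ k := by nlinarith
                  omega
                exact_mod_cast this
              have h4 : (b : ℝ) ≤ (k : ℝ) - 2 := by
                have : ((b + 2 : ℕ) : ℝ) ≤ (k : ℝ) := Nat.cast_le.2 (by omega)
                push_cast at this
                linarith
              have h5 := e2 b hb2' h4
              linarith
            · have h4 : b + 1 = k := by omega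
              have h5 : (b : ℝ) = (k : ℝ) - 1 := by
                have : ((b + 1 : ℕ) : ℝ) = (k : ℝ) := by rw [h4]
                push_cast at this
                linarith
              have h6 : (J : ℝ) = (h : ℝ) + 1 := by
                have : J = h + 1 := by omega
                exact_mod_cast this
              have h7 : (b : ℝ) * (k - b - μ) = ((k : ℝ) - 1) * (1 - μ) := by
                rw [h5]
                ring
              rw [h7, e3, h6]
              linarith
          · have h3 : 2 * (b : ℝ) ≤ (k : ℝ) := by exact_mod_cast h2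
            have h4 : 0 ≤ (b : ℝ) * (k - b - μ - 2) := mul_nonneg hb0 (by linarith)
            have h5 : (b : ℝ) * (k - b - μ - 2) = (b : ℝ) * (k - b - μ) - 2 * b := by ring
            linarith
        rw [hgb]
        simp only [Nat.cast_zero, Nat.cast_one] at *
        linarith
    · -- `ν ≥ 1`
      have hc2 : 2 * (k : ℝ) - 2 * μ ≤ gg k μ c + 2 * ν := by
        rcases Nat.lt_or_ge c k with h2 | h2
        · have h3 : (2 : ℝ) ≤ (c : ℝ) := by
            have : 2 ≤ c := by omega
            exact_mod_cast this
          have h4 : (c : ℝ) ≤ (k : ℝ) - 1 := by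
            have : ((c + 1 : ℕ) : ℝ) ≤ (k : ℝ) := Nat.cast_le.2 (by omega)
            push_cast at this
            linarith
          have := g2 c h3 h4
          linarith
        · have h3 : c = k := by omega
          have h4 : ν = h := by omega
          rw [h3, h4, gk]
          linarith
      have hkey : 0 ≤ (b : ℝ) * (k - b - μ) - 2 * (ν - 1) * J - w + k - μ - 1 := by
        have h8 : 2 * ((ν : ℝ) - 1) * J = 2 * ((ν : ℝ) * J) - 2 * J := by ring
        rcases Nat.eq_zero_or_pos b with hb' | hb'
        · subst hb'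
          have hJz : J = 0 := by omega
          subst hJz
          simp only [Nat.cast_zero] at *
          linarith
        · rcases Nat.lt_or_ge (b + 1) k with h3 | h3
          · have h4 : (b : ℝ) ≤ (k : ℝ) - 2 := by
              have : ((b + 2 : ℕ) : ℝ) ≤ (k : ℝ) := Nat.cast_le.2 (by omega)
              push_cast at this
              linarith
            have h5 := e1 b (by exact_mod_cast hb') h4
            linarith
          · have h4 : b + 1 = k := by omega
            have h5 : (b : ℝ) = (k : ℝ) - 1 := by
              have : ((b + 1 : ℕ) : ℝ) = (k : ℝ) := by rw [h4]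
              push_cast at this
              linarith
            have h7 : (b : ℝ) * (k - b - μ) = ((k : ℝ) - 1) * (1 - μ) := by
              rw [h5]
              ring
            rw [h7, e3]
            linarith
      rw [hgb]
      simp only [Nat.cast_one]
      have h9 : 2 * ((ν : ℝ) - 1) * J = 2 * (ν : ℝ) * J - 2 * J := by ring
      linarith

/-- **AR2** -/
theorem thm_AR2 : St_GB → St_AR2 := by
  intro hGB k h b c J γ ν lo hi hh hk P hbc
  have hlh : (lo : ℝ) + hi = b := by exact_mod_cast P.lh
  have hlo2 : 2 * (lo : ℝ) ≤ k := by exact_mod_cast P.lo2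
  have hhi2 : 2 * (hi : ℝ) ≤ k := by exact_mod_cast P.hi2
  have hlo0 : (0 : ℝ) ≤ (lo : ℝ) := Nat.cast_nonneg lo
  have hhi0 : (0 : ℝ) ≤ (hi : ℝ) := Nat.cast_nonneg hi
  have hγ0 : (0 : ℝ) ≤ (γ : ℝ) := Nat.cast_nonneg γ
  have h1 := AR2_core hGB hh hk P hbc (2 * (lo : ℝ)) (by linarith) hlo2
  have h2 := AR2_core hGB hh hk P hbc (2 * (hi : ℝ)) (by linarith) hhi2
  exact ⟨h1, by linarith⟩

end Pool.Agent.BKU
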