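import Pool.Agent.BKU.St

/-!
# Campaign BKU, module AR3: arithmetic case analysis
-/

set_option autoImplicit false

open Finset

namespace Pool.Agent.BKU

private theorem AR3_b {K μ : ℝ} {k h b J : ℕ} (hK : K = k) (hk : 3 ≤ k) (h0 : 0 < μ) (h8 : μ ≤ 1 / 8)
    (hμ : μ * (K - 2) = 2 * h) (hJ : J ≤ h + 1) (hb : b + h + 2 ≤ k + J) :
    -(K - 3 + μ) ≤ (b : ℝ) * (K - b - 2 - μ) + 2 * J := by
  have hbk : b + 1 ≤ k := by omega
  have hk3 : (3 : ℝ) ≤ K := by rw [hK]; exact_mod_cast hk
  have hJ0 : (0 : ℝ) ≤ J := Nat.cast_nonneg J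
  have hb0 : (0 : ℝ) ≤ b := Nat.cast_nonneg b
  by_cases h1 : b + 3 ≤ k
  · have h2 : (b : ℝ) + 3 ≤ K := by rw [hK]; exact_mod_cast h1
    have h3 : 0 ≤ (b : ℝ) * (K - b - 2 - μ) := mul_nonneg hb0 (by linarith)
    linarith
  · by_cases h4 : b + 2 = k
    · have h5 : (b : ℝ) = K - 2 := by
        have : ((b + 2 : ℕ) : ℝ) = k := by rw [h4]
        push_cast at this
        rw [hK]; linarith
      have h6 : (h : ℝ) ≤ J := by
        have : h ≤ J := by omega
        exact_mod_cast this
      have h7 : (b : ℝ) * (K - b - 2 - μ) = -(μ * (K - 2)) := by rw [h5]; ring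
      rw [h7, hμ]
      linarith
    · have h5 : (b : ℝ) = K - 1 := by
        have h6 : b + 1 = k := by omega
        have : ((b + 1 : ℕ) : ℝ) = k := by rw [h6]
        push_cast at this
        rw [hK]; linarith
      have h6 : (h : ℝ) + 1 ≤ J := by
        have : h + 1 ≤ J := by omega
        exact_mod_cast this
      have h7 : (b : ℝ) * (K - b - 2 - μ) = -(K - 1) - μ * (K - 2) - μ := by rw [h5]; ring
      rw [h7, hμ]
      linarith

/-- (AR3) -/
theorem thm_AR3 : St_GB → St_AR3 := by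
  intro hGB k h b c J γ ν lo hi hh hk hP
  obtain ⟨g1, g2, g3, g4, g5, g6, -, -, -⟩ := hGB k h hh hk
  obtain ⟨J1, Jb, bJ, γ1, n1, gn, cc, -, -, -⟩ := hP
  set μ := mu k h with hμ
  set K : ℝ := (k : ℝ) with hK
  have hk3 : 3 ≤ k := by nlinarith
  have hkR : 100 * ((h : ℝ) + 2) ^ 2 ≤ K := by
    have : ((100 * (h + 2) ^ 2 : ℕ) : ℝ) ≤ (k : ℝ) := by exact_mod_cast hk
    push_cast at this
    exact this
  have hh0 : (1 : ℝ) ≤ h := by exact_mod_cast hh
  have hb1 : (b : ℝ) + 1 ≤ K := by
    have : b + 1 ≤ k := by omega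
    rw [hK]; exact_mod_cast this
  have hb0 : (0 : ℝ) ≤ b := Nat.cast_nonneg b
  have hJ0 : (0 : ℝ) ≤ J := Nat.cast_nonneg J
  have hν0 : (0 : ℝ) ≤ ν := Nat.cast_nonneg ν
  have hνh : (ν : ℝ) ≤ h := by exact_mod_cast n1
  have hJh : (J : ℝ) ≤ h + 1 := by exact_mod_cast J1
  have hνJ : (ν : ℝ) * J ≤ h * (h + 1) := mul_le_mul hνh hJh hJ0 (by linarith)
  have hbb : 0 ≤ (b : ℝ) * (K - b - μ) := mul_nonneg hb0 (by linarith)
  have hB := AR3_b (K := K) (μ := μ) (k := k) (h := h) (b := b) (J := J) hK hk3 g1 g2 g3 J1 bJ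
  have hexp : TT k μ b c J γ ν - 2 * b - 2 * γ =
      (b : ℝ) * (K - b - μ) + gg k μ c + 2 * γ * ν - 2 * γ * (b - J) - 2 * (ν * J) - 2 * γ := by
    unfold TT
    have : gg k μ b = (b : ℝ) * (K - b - μ) + 2 * b := by unfold gg; rw [hK]; ring
    rw [this]; ring
  show 0 ≤ TT k μ b c J γ ν - 2 * b - 2 * γ
  rw [hexp]
  have hγ : γ = 0 ∨ γ = 1 := by omega
  rcases hγ with rfl | rfl
  · by_cases hν : ν = 0
    · subst hν
      have hc : (c : ℝ) + 1 ≤ K := by
        have : c + 1 ≤ k := by omega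
        rw [hK]; exact_mod_cast this
      have hc0 : (0 : ℝ) ≤ c := Nat.cast_nonneg c
      have h1 : 0 ≤ gg k μ c := by
        unfold gg
        exact mul_nonneg hc0 (by linarith)
      push_cast
      linarith
    · have hc : (c : ℝ) ≤ K - 1 := by
        have : c + 1 ≤ k := by omega
        have h2 : ((c + 1 : ℕ) : ℝ) ≤ k := by exact_mod_cast this
        push_cast at h2
        linarith
      have hc1 : (1 : ℝ) ≤ c := by
        have : 1 ≤ c := by omega
        exact_mod_cast this
      have h1 := g4 c hc1 hc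
      push_cast
      nlinarith
  · by_cases hν : ν = 0
    · subst hν
      have hc : (c : ℝ) ≤ K - 1 := by
        have : c + 1 ≤ k := by omega
        have h2 : ((c + 1 : ℕ) : ℝ) ≤ k := by exact_mod_cast this
        push_cast at h2
        linarith
      have hc1 : (1 : ℝ) ≤ c := by
        have : 1 ≤ c := by omega
        exact_mod_cast this
      have h1 := g4 c hc1 hc
      push_cast
      nlinarith
    · have h1 : 2 * K - 2 * μ ≤ gg k μ c + 2 * ν := by
        by_cases hck : c + 1 ≤ k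
        · have hc : (c : ℝ) ≤ K - 1 := by
            have h2 : ((c + 1 : ℕ) : ℝ) ≤ k := by exact_mod_cast hck
            push_cast at h2
            linarith
          have hc2 : (2 : ℝ) ≤ c := by
            have : 2 ≤ c := by omega
            exact_mod_cast this
          have := g5 c hc2 hc
          linarith
        · have e1 : c = k := by omega
          have e2 : ν = h := by omega
          have e3 : (c : ℝ) = K := by rw [hK, e1]
          rw [e3, g6, e2]
          linarith
      push_cast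
      nlinarith

end Pool.Agent.BKU
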