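import Pool.Agent.BKU.St

/-!
# Campaign BKU (MP_303581_co): module ARD, the group `D` and the function `mm`
-/

set_option autoImplicit false

open Finset

namespace Pool.Agent.BKU

private lemma ARD_sub {k : ℕ} {μ : ℝ} (h1 : μ ≤ 1 / 8) (hk : (1 : ℝ) ≤ k) (m n : ℕ) :
    mm k μ (m + n) ≤ mm k μ m + mm k μ n := by
  rcases Nat.eq_zero_or_pos m with rfl | hm
  · simp [mm]
  rcases Nat.eq_zero_or_pos n with rfl | hn
  · simp [mm]
  have hlow : ∀ j : ℕ, 0 < j → (k : ℝ) - μ ≤ mm k μ j := by
    intro j hj
    unfold mm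
    rw [if_neg (by omega)]
    split_ifs
    · linarith
    · linarith
  have hmn : mm k μ (m + n) = 2 * k - 2 * μ := by
    unfold mm
    rw [if_neg (by omega), if_neg (by omega)]
  have h2 := hlow m hm
  have h3 := hlow n hn
  rw [hmn]
  linarith

/-- (ARD) The group `D` and the function `mm` -/
theorem thm_ARD : St_GB → St_ARD := by
  intro hGB k h hh hk
  obtain ⟨-, hμ8, -, -, h5, h6, -, -, -⟩ := hGB k h hh hk
  have hk1 : (1 : ℝ) ≤ k := by
    have h100 : 0 < 100 * (h + 2) ^ 2 := Nat.mul_pos (by norm_num) (pow_pos (Nat.succ_pos _) 2)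
    have : 1 ≤ k := lt_of_lt_of_le h100 hk
    exact_mod_cast this
  have h3 : ∀ m n : ℕ, mm k (mu k h) (m + n) ≤ mm k (mu k h) m + mm k (mu k h) n :=
    fun m n => ARD_sub hμ8 hk1 m n
  refine ⟨?_, ?_, h3, ?_⟩
  · intro a d n hd hn hdn ha h2
    by_cases hak : a + 1 ≤ k
    · have hx : (a : ℝ) ≤ (k : ℝ) - 1 := by
        have : ((a + 1 : ℕ) : ℝ) ≤ k := by exact_mod_cast hak
        push_cast at this
        linarith
      have hx2 : (2 : ℝ) ≤ a := by exact_mod_cast h2
      have h7 := h5 (a : ℝ) hx2 hx
      have h8 : (0 : ℝ) ≤ 2 * d * n := by positivity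
      linarith
    · have ha' : a = k := by omega
      have hd' : d = 1 := by omega
      have hn' : n = h := by omega
      subst hd' hn' ha'
      rw [h6]
      push_cast
      linarith
  · intro d n hdn
    have h7 : (d : ℝ) * n = 0 := by
      rcases Nat.eq_zero_or_pos d with rfl | hd
      · simp
      · have : n = 0 := by omega
        subst this
        simp
    unfold gg
    push_cast
    rw [mul_assoc 2 (d : ℝ) n, h7]
    ring
  · intro ι A f
    classical
    induction A using Finset.induction_on with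
    | empty => simp [mm]
    | insert i A hi ih =>
      rw [Finset.sum_insert hi, Finset.sum_insert hi]
      exact (h3 _ _).trans (by linarith)

end Pool.Agent.BKU
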