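import Pool.Agent.BKU.St

set_option autoImplicit false

open Finset

namespace Pool.Agent.BKU

private lemma CP_sum {ι W M : Type} [Fintype ι] [Fintype W] [AddCommMonoid M] (F : Finset (ι × W)) (g : ι × W → M) :
    ∑ x ∈ F, g x = ∑ i, ∑ w ∈ sec F i, g (i, w) := by
  classical
  have h0 : (univ.filter fun x : ι × W => x ∈ F) = F := by
    ext x
    simp
  have h1 : ∑ x ∈ F, g x = ∑ x : ι × W, if x ∈ F then g x else 0 := by
    rw [← sum_filter, h0]
  rw [h1, Fintype.sum_prod_type]
  refine sum_congr rfl fun i _ => ?_
  unfold sec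
  rw [sum_filter]

theorem thm_CP : St_CP := by
  classical
  intro ι W _ _ G F
  refine ⟨?_, ?_, ?_⟩
  · unfold E2
    rw [CP_sum]
    refine sum_congr rfl fun i _ => sum_congr rfl fun w _ => ?_
    rw [CP_sum, sum_eq_single i]
    · refine sum_congr rfl fun v _ => ?_
      refine if_congr ?_ rfl rfl
      constructor
      · intro h
        exact h.2
      · intro h
        exact ⟨rfl, h⟩
    · intro j _ hj
      refine sum_eq_zero fun v _ => ?_
      rw [if_neg]
      intro h
      exact hj h.1.symm
    · intro h
      exact absurd (mem_univ i) h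
  · intro p
    unfold ct
    rw [card_filter, CP_sum]
    refine sum_congr rfl fun i _ => ?_
    rw [card_filter]
  · rw [card_eq_sum_ones, CP_sum]
    refine sum_congr rfl fun i _ => ?_
    rw [card_eq_sum_ones]

end Pool.Agent.BKU
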