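import Pool.Agent.BKU.St

/-!
# BKU, module GA: the excess of the big component
-/

set_option autoImplicit false

open Finset

namespace Pool.Agent.BKU

private theorem GA_mu (k h : ℕ) (h1 : 1 ≤ h) (hk : 100 * (h + 2) ^ 2 ≤ k) : 0 ≤ mu k h ∧ mu k h ≤ 1 ∧ (900 : ℝ) ≤ k := by
  have h2 : 3 * (h + 2) ≤ (h + 2) ^ 2 := by
    rw [pow_two]
    exact Nat.mul_le_mul_right _ (by omega)
  have h3 : 300 * (h + 2) ≤ k := by omega
  have h4 : ((300 * (h + 2) : ℕ) : ℝ) ≤ k := by exact_mod_cast h3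
  have h5 : (1 : ℝ) ≤ h := by exact_mod_cast h1
  push_cast at h4
  have h6 : (0 : ℝ) < (k : ℝ) - 2 := by linarith
  refine ⟨?_, ?_, by linarith⟩
  · unfold mu
    positivity
  · unfold mu
    rw [div_le_one h6]
    linarith

private theorem GA_mm_nonneg (k : ℕ) (μ : ℝ) (n : ℕ) (hμ : μ ≤ 1) (hk : (900 : ℝ) ≤ k) : 0 ≤ mm k μ n := by
  unfold mm
  split_ifs <;> linarith

private theorem GA_mm_le (k : ℕ) (μ : ℝ) (n : ℕ) (hμ : μ ≤ 1) (hk : (900 : ℝ) ≤ k) :
    mm k μ n ≤ 2 * k - 2 * μ := by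
  unfold mm
  split_ifs <;> linarith

private theorem GA_mm_ge (k : ℕ) (μ : ℝ) (n : ℕ) (hμ : μ ≤ 1) (hk : (900 : ℝ) ≤ k) (hn : 1 ≤ n) :
    (k : ℝ) - 1 - μ ≤ mm k μ n := by
  unfold mm
  split_ifs
  · omega
  · linarith
  · linarith

/-- the summand of a pair -/
private noncomputable def GA_s (k h b c J γ ν lo hi d z : ℕ) : ℝ :=
  TT k (mu k h) b c J γ ν - 2 * d * lo - 2 * z * hi - 2 * d * γ

private theorem GA_pair (hA1 : St_AR1) (hA2 : St_AR2) (hA3 : St_AR3) (k h b c J γ ν lo hi d z : ℕ) (h1 : 1 ≤ h)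
    (hk : 100 * (h + 2) ^ 2 ≤ k) (hP : Par k h b c J γ ν lo hi) (hd : d ≤ 1) (hz : z ≤ 1) :
    0 ≤ GA_s k h b c J γ ν lo hi d z ∧
    (1 ≤ b + c → d + z ≤ 1 → (k : ℝ) - 1 - mu k h ≤ GA_s k h b c J γ ν lo hi d z) ∧
    (d = 0 → z = 0 → mm k (mu k h) (b + c) ≤ GA_s k h b c J γ ν lo hi d z) := by
  obtain ⟨_, hm1, hk9⟩ := GA_mu k h h1 hk
  have a1 := hA1 k h b c J γ ν lo hi h1 hk hP
  have a2 := hA2 k h b c J γ ν lo hi h1 hk hP
  have a3 := hA3 k h b c J γ ν lo hi h1 hk hP
  have hlh : (lo : ℝ) + hi = b := by exact_mod_cast hP.lh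
  have n1 := GA_mm_nonneg k (mu k h) (b + c) hm1 hk9
  have hbc : b + c = 0 → GA_s k h b c J γ ν lo hi d z = 0 := by
    intro h0
    have hb : b = 0 := by omega
    have hc : c = 0 := by omega
    have hJ := hP.Jb
    have hg := hP.gn
    have hl := hP.lh
    have hJ0 : J = 0 := by omega
    have hg0 : γ = 0 := by omega
    have hn0 : ν = 0 := by omega
    have hlo : lo = 0 := by omega
    have hhi : hi = 0 := by omega
    subst hb hc hJ0 hg0 hn0 hlo hhi
    unfold GA_s TT gg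
    simp
  by_cases h0 : b + c = 0
  · rw [hbc h0]
    refine ⟨le_rfl, fun h => absurd h (by omega), fun _ _ => ?_⟩
    rw [h0]
    unfold mm
    simp
  · have a2' := a2 (by omega)
    have n2 := GA_mm_ge k (mu k h) (b + c) hm1 hk9 (by omega)
    unfold GA_s
    interval_cases d <;> interval_cases z
    · refine ⟨?_, fun _ _ => ?_, fun _ _ => ?_⟩ <;> push_cast <;> linarith
    · refine ⟨?_, fun _ _ => ?_, fun _ h => absurd h (by omega)⟩ <;> push_cast <;> linarith [a2'.2]
    · refine ⟨?_, fun _ _ => ?_, fun h _ => absurd h (by omega)⟩ <;> push_cast <;> linarith [a2'.1]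
    · refine ⟨?_, fun _ h => absurd h (by omega), fun h _ => absurd h (by omega)⟩
      push_cast
      linarith

theorem thm_GA : St_ST → St_PP → St_PA → St_AR1 → St_AR2 → St_AR3 → St_ARD → St_GA := by
  intro hST hPP hPA hA1 hA2 hA3 hARD k h h1 hk F
  obtain ⟨hm0, hm1, hk9⟩ := GA_mu k h h1 hk
  have hsq : h + 2 ≤ (h + 2) ^ 2 := Nat.le_self_pow (by norm_num) _
  have hhk : h + 2 ≤ k := by omega
  obtain ⟨hE, hz1, hzs, hFc⟩ := hPA k h F
  obtain ⟨hD, hd1, hn1, hdn, hac⟩ := hST.2 k h (pL F) (by omega)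
  obtain ⟨r1, r2, r3, r4⟩ := hARD k h h1 hk
  obtain ⟨a, ha⟩ : ∃ a, a = (pL F).card := ⟨_, rfl⟩
  obtain ⟨d, hdd⟩ : ∃ d, d = ct (pL F) (fun a => a.val = 0) := ⟨_, rfl⟩
  obtain ⟨n, hnn⟩ : ∃ n, n = ct (pL F) (fun a => 1 ≤ a.val ∧ a.val ≤ h) := ⟨_, rfl⟩
  obtain ⟨z, hz⟩ : ∃ z : Fin h → ℕ, z = fun j => ct (pL F) (fun a => a.val = j.val + 1) := ⟨_, rfl⟩
  have hzj : ∀ j : Fin h, ct (pL F) (fun a => a.val = j.val + 1) = z j := fun j => by rw [hz]
  rw [← hdd] at hd1 hdn hac hD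
  rw [← hnn] at hn1 hdn hac hD hzs
  rw [← ha] at hdn hac hD hFc
  simp only [hzj] at hE hz1 hzs
  rw [← hdd] at hE
  -- the summands
  obtain ⟨S, hS⟩ : ∃ S : Fin h → Finset (Fin (k - 1) ⊕ Fin k), S = fun j => sec (pR F) j := ⟨_, rfl⟩
  have hSj : ∀ j : Fin h, sec (pR F) j = S j := fun j => by rw [hS]
  simp only [hSj] at hE hFc
  obtain ⟨s, hs⟩ : ∃ s : Fin h → ℝ, s = fun j =>
    GA_s k h (nB (S j)) (nC (S j)) (nJ h (S j)) (nG (S j)) (nN h (S j)) (nLo (S j)) (nHi (S j)) d (z j) := ⟨_, rfl⟩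
  have hpp := fun j => hPP k h (S j) hhk
  have hpair := fun j => GA_pair hA1 hA2 hA3 k h (nB (S j)) (nC (S j)) (nJ h (S j)) (nG (S j)) (nN h (S j)) (nLo (S j))
    (nHi (S j)) d (z j) h1 hk (hpp j).2.1 hd1 (hz1 j)
  have hs0 : ∀ j, 0 ≤ s j := fun j => by
    rw [hs]
    exact (hpair j).1
  have hkey : ((k : ℝ) + 1 - mu k h) * F.card - E2 (ag k h) F = gg k (mu k h) a + 2 * d * n + ∑ j, s j := by
    have e1 : ∀ j : Fin h, s j = ((k : ℝ) + 1 - mu k h) * ((S j).card : ℝ) -
        (E2 (pr k h) (S j) + 2 * ((d : ℝ) * nLo (S j) + (z j : ℝ) * nHi (S j) + (d : ℝ) * nG (S j))) := by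
      intro j
      have e2 := (hpp j).1
      have e3 : ((S j).card : ℝ) = nB (S j) + nC (S j) := by
        exact_mod_cast (hpp j).2.2
      rw [hs, e2, e3]
      unfold GA_s TT gg
      ring
    have e4 : (F.card : ℝ) = a + ∑ j, ((S j).card : ℝ) := by
      exact_mod_cast hFc
    rw [hE, hD, e4, sum_congr rfl fun j _ => e1 j, sum_sub_distrib, ← mul_sum]
    unfold gg
    ring
  have hmain : mm k (mu k h) F.card ≤ gg k (mu k h) a + 2 * d * n + ∑ j, s j := by
    have hsum : 0 ≤ ∑ j, s j := sum_nonneg fun j _ => hs0 j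
    have hmle := GA_mm_le k (mu k h) F.card hm1 hk9
    have hzn : ∀ j, z j ≤ n := by
      intro j
      rw [← hzs]
      exact single_le_sum (fun _ _ => Nat.zero_le _) (mem_univ j)
    rcases Nat.lt_or_ge 1 a with h2 | h2
    · have := r1 a d n hd1 hn1 hdn hac h2
      linarith
    · obtain h3 | h3 : a = 1 ∨ a = 0 := by omega
      · have e5 := r2 d n (by omega)
        rw [h3]
        by_cases hall : ∀ j, (S j).card = 0
        · have e6 : F.card = 1 := by
            rw [hFc, sum_eq_zero fun j _ => hall j, h3, add_zero]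
          rw [e6]
          have e7 : mm k (mu k h) 1 = (k : ℝ) + 1 - mu k h := by
            unfold mm
            simp
          rw [e7]
          linarith
        · push Not at hall
          obtain ⟨j, hj⟩ := hall
          have e8 : (k : ℝ) - 1 - mu k h ≤ s j := by
            rw [hs]
            refine (hpair j).2.1 ?_ ?_
            · have := (hpp j).2.2
              omega
            · have := hzn j
              omega
          have e9 : s j ≤ ∑ j, s j := single_le_sum (f := s) (fun i _ => hs0 i) (mem_univ j)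
          linarith
      · have hd0 : d = 0 := by omega
        have hn0 : n = 0 := by omega
        have e5 : ∀ j, mm k (mu k h) (S j).card ≤ s j := by
          intro j
          rw [hs, (hpp j).2.2]
          refine (hpair j).2.2 hd0 ?_
          have := hzn j
          omega
        have e6 : F.card = ∑ j, (S j).card := by
          rw [hFc, h3, zero_add]
        have e7 := r4 (Fin h) univ fun j => (S j).card
        rw [e6, h3, hd0]
        have e8 : ∑ j, mm k (mu k h) (S j).card ≤ ∑ j, s j := sum_le_sum fun j _ => e5 j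
        have e9 : gg k (mu k h) ((0 : ℕ) : ℝ) = 0 := by
          unfold gg
          simp
        rw [e9]
        push_cast
        linarith
  linarith

end Pool.Agent.BKU
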