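import Pool.Agent.BKU.St

/-!
# BKU, module GB: bounds for `x (k + 2 - x - μ)`
-/

set_option autoImplicit false

namespace Pool.Agent.BKU

theorem thm_GB : St_GB := by
  intro k h hh hk
  have hH : (1 : ℝ) ≤ (h : ℝ) := by exact_mod_cast hh
  have hK : 100 * ((h : ℝ) + 2) ^ 2 ≤ (k : ℝ) := by exact_mod_cast hk
  have hK2 : 0 < (k : ℝ) - 2 := by nlinarith
  have hmu : mu k h * ((k : ℝ) - 2) = 2 * h := by
    unfold mu
    exact div_mul_cancel₀ _ hK2.ne'
  obtain ⟨m, hm⟩ : ∃ m, m = mu k h := ⟨_, rfl⟩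
  rw [← hm] at hmu ⊢
  have hm0 : 0 < m := by
    rw [hm]
    unfold mu
    exact div_pos (by linarith) hK2
  have hm8 : m ≤ 1 / 8 := by
    by_contra hc
    have hc' : 1 / 8 < m := lt_of_not_ge hc
    have h1 : 1 / 8 * ((k : ℝ) - 2) < m * ((k : ℝ) - 2) := mul_lt_mul_of_pos_right hc' hK2
    nlinarith
  refine ⟨hm0, hm8, hmu, ?_, ?_, ?_, ?_, ?_, ?_⟩
  · intro x h1 h2
    have h3 : 0 ≤ (x - 1) * ((k : ℝ) + 1 - m - x) := mul_nonneg (by linarith) (by linarith)
    unfold gg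
    nlinarith
  · intro x h1 h2
    have h3 : 0 ≤ (x - 2) * ((k : ℝ) - m - x) := mul_nonneg (by linarith) (by linarith)
    unfold gg
    nlinarith
  · unfold gg
    linear_combination (-1 : ℝ) * hmu
  · intro x h1 h2
    have h3 : 0 ≤ (x - 1) * ((k : ℝ) - 1 - m - x) := mul_nonneg (by linarith) (by linarith)
    nlinarith
  · intro x h1 h2
    have h3 : 0 ≤ (x - 2) * ((k : ℝ) - 2 - x) := mul_nonneg (by linarith) (by linarith)
    have h4 : m * (x - 2) ≤ m * ((k : ℝ) - 2) := mul_le_mul_of_nonneg_left (by linarith) hm0.le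
    nlinarith
  · linear_combination (-1 : ℝ) * hmu

end Pool.Agent.BKU
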