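import Pool.Agent.BKU.St

/-!
# Campaign BKU: the excess of a pair (helper91)

Statement of helper73, `BKU.St_GP`.
-/

set_option autoImplicit false

open Finset

namespace Pool.Agent.BKU

theorem thm_GP : St_PP → St_AR1 → St_GP := by
  intro hPP hAR k h h1 hk F
  have hk2 : h + 2 ≤ k := by nlinarith
  obtain ⟨hE, hPar, hc⟩ := hPP k h F hk2
  have ha := hAR k h _ _ _ _ _ _ _ h1 hk hPar
  rw [hc, hE]
  unfold TT gg at ha
  push_cast
  linarith

end Pool.Agent.BKU
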