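import Pool.Agent.BKU.St

/-!
# Campaign BKU (MP_303581_co): independent sets of the big component (IA)
-/

set_option autoImplicit false

open Finset

namespace Pool.Agent.BKU

private theorem IA_memL {X Y : Type} [Fintype X] (F : Finset (X ⊕ Y)) (x : X) :
    x ∈ pL F ↔ Sum.inl x ∈ F := by
  unfold pL
  simp

private theorem IA_memR {X Y : Type} [Fintype Y] (F : Finset (X ⊕ Y)) (y : Y) :
    y ∈ pR F ↔ Sum.inr y ∈ F := by
  unfold pR
  simp

private theorem IA_memS {ι W : Type} [Fintype W] (F : Finset (ι × W)) (i : ι) (w : W) :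
    w ∈ sec F i ↔ (i, w) ∈ F := by
  unfold sec
  simp

/-- two different vertices of an independent set of `st k h` are the centre and a leaf -/
private theorem IA_two {k h : ℕ} {D : Finset (Fin k)}
    (hD : ∀ x ∈ D, ∀ y ∈ D, x ≠ y → ¬ (st k h).Adj x y) {x y : Fin k} (hx : x ∈ D) (hy : y ∈ D)
    (hxy : x ≠ y) : (x.val = 0 ∧ y.val ≤ h) ∨ (y.val = 0 ∧ x.val ≤ h) := by
  by_contra hn
  push Not at hn
  refine hD x hx y hy hxy ⟨hxy, ?_, ?_⟩
  · rintro ⟨h1, h2⟩
    have := hn.1 h1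
    omega
  · rintro ⟨h1, h2⟩
    have := hn.2 h1
    omega

/-- an independent set of `st k h` has at most two elements -/
private theorem IA_le2 {k h : ℕ} {D : Finset (Fin k)}
    (hD : ∀ x ∈ D, ∀ y ∈ D, x ≠ y → ¬ (st k h).Adj x y) : D.card ≤ 2 := by
  by_contra hn
  push Not at hn
  obtain ⟨a, b, c, ha, hb, hc, hab, hac, hbc⟩ := Finset.two_lt_card_iff.1 hn
  have h1 := IA_two hD ha hb hab
  have h2 := IA_two hD ha hc hac
  have h3 := IA_two hD hb hc hbc
  have e1 : a.val ≠ b.val := fun h => hab (Fin.ext h)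
  have e2 : a.val ≠ c.val := fun h => hac (Fin.ext h)
  have e3 : b.val ≠ c.val := fun h => hbc (Fin.ext h)
  omega

theorem thm_IA : St_JN → St_CP → St_IP → St_IA := by
  intro hJN hCP hIP k h hk I hI
  have hc1 : I.card = (pL I).card + (pR I).card :=
    (hJN _ _ (st k h) (cp (Fin h) (pr k h)) (rAG k h) I).2
  have hc2 : (pR I).card = ∑ j : Fin h, (sec (pR I) j).card := (hCP (Fin h) _ (pr k h) (pR I)).2.2
  have hS : ∀ j : Fin h, ∀ x ∈ sec (pR I) j, ∀ y ∈ sec (pR I) j, x ≠ y → ¬ (pr k h).Adj x y := by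
    intro j x hx y hy hxy hadj
    have hx' : Sum.inr (j, x) ∈ I := (IA_memR I _).1 ((IA_memS _ _ _).1 hx)
    have hy' : Sum.inr (j, y) ∈ I := (IA_memR I _).1 ((IA_memS _ _ _).1 hy)
    refine hI _ hx' _ hy' ?_ ?_
    · intro he
      have he' := Sum.inr.inj he
      exact hxy (Prod.mk.inj he').2
    · exact ⟨rfl, hadj⟩
  have hS2 : ∀ j : Fin h, (sec (pR I) j).card ≤ 2 := fun j => (hIP k h hk).1 _ (hS j)
  have hD : ∀ x ∈ pL I, ∀ y ∈ pL I, x ≠ y → ¬ (st k h).Adj x y := by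
    intro x hx y hy hxy hadj
    refine hI _ ((IA_memL I x).1 hx) _ ((IA_memL I y).1 hy) ?_ ?_
    · intro he
      exact hxy (Sum.inl.inj he)
    · exact hadj
  have hDc := IA_le2 hD
  by_cases hD1 : (pL I).card ≤ 1
  · have hs : ∑ j : Fin h, (sec (pR I) j).card ≤ ∑ _j : Fin h, 2 := Finset.sum_le_sum fun j _ => hS2 j
    rw [Finset.sum_const, Finset.card_univ, Fintype.card_fin, smul_eq_mul] at hs
    omega
  · push Not at hD1
    obtain ⟨x, y, hx, hy, hxy⟩ := Finset.one_lt_card_iff.1 hD1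
    -- the centre and a leaf
    have key : ∃ a ∈ pL I, ∃ b ∈ pL I, a.val = 0 ∧ 1 ≤ b.val ∧ b.val ≤ h := by
      have e1 : x.val ≠ y.val := fun h => hxy (Fin.ext h)
      rcases IA_two hD hx hy hxy with ⟨h1, h2⟩ | ⟨h1, h2⟩
      · exact ⟨x, hx, y, hy, h1, by omega, h2⟩
      · exact ⟨y, hy, x, hx, h1, by omega, h2⟩
    obtain ⟨a, ha, b, hb, ha0, hb1, hbh⟩ := key
    have haI := (IA_memL I a).1 ha
    have hbI := (IA_memL I b).1 hb
    let j₀ : Fin h := ⟨b.val - 1, by omega⟩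
    have hone : (sec (pR I) j₀).card ≤ 1 := by
      refine (hIP k h hk).2 _ (hS j₀) ?_ ?_
      · intro w hw
        have hw' : Sum.inr (j₀, Sum.inl w) ∈ I := (IA_memR I _).1 ((IA_memS _ _ _).1 hw)
        by_cases hwk : w.val < k / 2
        · refine hI _ haI _ hw' (by simp) ?_
          exact Or.inl ⟨ha0, hwk⟩
        · refine hI _ hbI _ hw' (by simp) ?_
          refine Or.inr ⟨?_, by omega⟩
          show b.val = (b.val - 1) + 1
          omega
      · intro c hc hcm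
        have hw' : Sum.inr (j₀, Sum.inr c) ∈ I := (IA_memR I _).1 ((IA_memS _ _ _).1 hcm)
        refine hI _ haI _ hw' (by simp) ?_
        exact ⟨ha0, hc⟩
    have hsplit : ∑ j : Fin h, (sec (pR I) j).card
        = (sec (pR I) j₀).card + ∑ j ∈ Finset.univ.erase j₀, (sec (pR I) j).card :=
      (Finset.add_sum_erase _ _ (Finset.mem_univ j₀)).symm
    have hs : ∑ j ∈ Finset.univ.erase j₀, (sec (pR I) j).card ≤ ∑ _j ∈ Finset.univ.erase j₀, 2 :=
      Finset.sum_le_sum fun j _ => hS2 j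
    rw [Finset.sum_const, Finset.card_erase_of_mem (Finset.mem_univ j₀), Finset.card_univ,
      Fintype.card_fin, smul_eq_mul] at hs
    have hh : 1 ≤ h := by omega
    omega

end Pool.Agent.BKU
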