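import Pool.Agent.BKU.St

/-!
# BKU, IP: independent sets of a pair
-/

set_option autoImplicit false

open Finset

namespace Pool.Agent.BKU

private lemma IP_ll {k h : ℕ} {a b : Fin (k - 1)} (H : (Sum.inl a : Fin (k - 1) ⊕ Fin k) ≠ Sum.inl b →
    ¬ (pr k h).Adj (Sum.inl a) (Sum.inl b)) : a = b := by
  by_contra hab
  exact H (fun e => hab (Sum.inl_injective e)) (show (⊤ : SimpleGraph (Fin (k - 1))).Adj a b from hab)

private lemma IP_rr {k h : ℕ} {a b : Fin k} (H : (Sum.inr a : Fin (k - 1) ⊕ Fin k) ≠ Sum.inr b →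
    ¬ (pr k h).Adj (Sum.inr a) (Sum.inr b)) (hab : a ≠ b) :
    (a.val = 0 ∧ 1 ≤ b.val ∧ b.val ≤ h) ∨ (b.val = 0 ∧ 1 ≤ a.val ∧ a.val ≤ h) := by
  have h1 : ¬ (a ≠ b ∧ ¬ (a.val = 0 ∧ b.val ≤ h) ∧ ¬ (b.val = 0 ∧ a.val ≤ h)) :=
    H (fun e => hab (Sum.inr_injective e))
  have h2 : a.val ≠ b.val := fun e => hab (Fin.ext e)
  have h3 : (a.val = 0 ∧ b.val ≤ h) ∨ (b.val = 0 ∧ a.val ≤ h) := by
    by_contra h4
    exact h1 ⟨hab, fun h5 => h4 (Or.inl h5), fun h5 => h4 (Or.inr h5)⟩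
  omega

private lemma IP_lr {k h : ℕ} {b : Fin (k - 1)} {c : Fin k} (H : (Sum.inl b : Fin (k - 1) ⊕ Fin k) ≠ Sum.inr c →
    ¬ (pr k h).Adj (Sum.inl b) (Sum.inr c)) :
    ¬ ((c.val = 0 ∧ b.val + h + 2 < k) ∨ (1 ≤ c.val ∧ c.val ≤ h ∧ k ≤ b.val + h + 2)) :=
  H Sum.inl_ne_inr

private lemma IP_rl {k h : ℕ} {b : Fin (k - 1)} {c : Fin k} (H : (Sum.inr c : Fin (k - 1) ⊕ Fin k) ≠ Sum.inl b →
    ¬ (pr k h).Adj (Sum.inr c) (Sum.inl b)) :
    ¬ ((c.val = 0 ∧ b.val + h + 2 < k) ∨ (1 ≤ c.val ∧ c.val ≤ h ∧ k ≤ b.val + h + 2)) :=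
  H Sum.inr_ne_inl

theorem thm_IP : St_IP := by
  intro k h _
  refine ⟨?_, ?_⟩
  · intro I hI
    by_contra hcon
    obtain ⟨x, hx, y, hy, z, hz, hxy, hxz, hyz⟩ := Finset.two_lt_card.mp (by omega : 2 < I.card)
    have h1 := hI x hx y hy
    have h2 := hI x hx z hz
    have h3 := hI y hy z hz
    rcases x with a | a <;> rcases y with b | b <;> rcases z with c | c
    · exact hxy (by rw [IP_ll h1])
    · exact hxy (by rw [IP_ll h1])
    · exact hxz (by rw [IP_ll h2])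
    · have q1 := IP_lr h1
      have q2 := IP_lr h2
      have q3 := IP_rr h3 (fun e => hyz (by rw [e]))
      omega
    · exact hyz (by rw [IP_ll h3])
    · have q1 := IP_rl h1
      have q2 := IP_rr h2 (fun e => hxz (by rw [e]))
      have q3 := IP_lr h3
      omega
    · have q1 := IP_rr h1 (fun e => hxy (by rw [e]))
      have q2 := IP_rl h2
      have q3 := IP_rl h3
      omega
    · have q1 := IP_rr h1 (fun e => hxy (by rw [e]))
      have q2 := IP_rr h2 (fun e => hxz (by rw [e]))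
      have q3 := IP_rr h3 (fun e => hyz (by rw [e]))
      omega
  · intro I hI hB hC
    by_contra hcon
    obtain ⟨x, hx, y, hy, hxy⟩ := Finset.one_lt_card.mp (by omega : 1 < I.card)
    have h1 := hI x hx y hy
    rcases x with a | a
    · exact hB a hx
    rcases y with b | b
    · exact hB b hy
    have ha : a.val ≠ 0 := fun e => hC a e hx
    have hb : b.val ≠ 0 := fun e => hC b e hy
    have q1 := IP_rr h1 (fun e => hxy (by rw [e]))
    omega

end Pool.Agent.BKU
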