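import Pool.Agent.BKU.St

/-!
# Campaign BKU: module PA, the edges of the big component
-/

set_option autoImplicit false

open Finset

namespace Pool.Agent.BKU

private theorem PA_ct {V : Type} (F : Finset V) (p : V → Prop) [DecidablePred p] :
    ct F p = ∑ x ∈ F, if p x then 1 else 0 := by
  unfold ct
  rw [Finset.card_filter]
  refine Finset.sum_congr rfl fun x _ => ?_
  by_cases h : p x
  · rw [if_pos h, if_pos h]
  · rw [if_neg h, if_neg h]

private theorem PA_ctR {V : Type} (F : Finset V) (p : V → Prop) [DecidablePred p] :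
    (ct F p : ℝ) = ∑ x ∈ F, if p x then (1 : ℝ) else 0 := by
  rw [PA_ct, Nat.cast_sum]
  refine Finset.sum_congr rfl fun x _ => ?_
  split_ifs
  · exact Nat.cast_one
  · exact Nat.cast_zero

private theorem PA_congr {V : Type} (F : Finset V) (p q : V → Prop) (h : ∀ x, p x ↔ q x) : ct F p = ct F q := by
  have : p = q := funext fun x => propext (h x)
  rw [this]

private theorem PA_none {V : Type} (F : Finset V) (p : V → Prop) (h : ∀ x, ¬ p x) : ct F p = 0 := by
  classical
  rw [PA_ct]
  exact Finset.sum_eq_zero fun x _ => if_neg (h x)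

private theorem PA_univ {V : Type} [Fintype V] (F : Finset V) (p : V → Prop) [DecidablePred p]
    [DecidablePred fun x => x ∈ F] : ct F p = ∑ x : V, if x ∈ F then (if p x then 1 else 0) else 0 := by
  calc ct F p = ∑ x ∈ F, (if p x then 1 else 0) := PA_ct F p
    _ = ∑ x ∈ univ.filter (fun x => x ∈ F), (if p x then 1 else 0) := by
        refine Finset.sum_congr ?_ fun _ _ => rfl
        ext x
        simp
    _ = _ := Finset.sum_filter _ _

private theorem PA_mL {X Y : Type} [Fintype X] (S : Finset (X ⊕ Y)) (x : X) : x ∈ pL S ↔ Sum.inl x ∈ S := by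
  classical
  unfold pL
  simp only [Finset.mem_filter, Finset.mem_univ, true_and]

private theorem PA_mR {X Y : Type} [Fintype Y] (S : Finset (X ⊕ Y)) (x : Y) : x ∈ pR S ↔ Sum.inr x ∈ S := by
  classical
  unfold pR
  simp only [Finset.mem_filter, Finset.mem_univ, true_and]

private theorem PA_split {X Y : Type} [Fintype X] [Fintype Y] (S : Finset (X ⊕ Y)) (p : X ⊕ Y → Prop) :
    ct S p = ct (pL S) (fun x => p (Sum.inl x)) + ct (pR S) (fun y => p (Sum.inr y)) := by
  classical
  rw [PA_univ S p, Fintype.sum_sum_type, PA_univ (pL S), PA_univ (pR S)]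
  congr 1
  · refine Finset.sum_congr rfl fun x _ => ?_
    by_cases h : Sum.inl x ∈ S
    · rw [if_pos h, if_pos ((PA_mL S x).2 h)]
    · rw [if_neg h, if_neg (fun h' => h ((PA_mL S x).1 h'))]
  · refine Finset.sum_congr rfl fun x _ => ?_
    by_cases h : Sum.inr x ∈ S
    · rw [if_pos h, if_pos ((PA_mR S x).2 h)]
    · rw [if_neg h, if_neg (fun h' => h ((PA_mR S x).1 h'))]

private theorem PA_row (k h : ℕ) (x : Fin k) (j : Fin h) (S : Finset (Fin (k - 1) ⊕ Fin k)) :
    (ct S (fun w => rAG k h x (j, w)) : ℝ) =
      (if x.val = 0 then (1 : ℝ) else 0) * nLo S + (if x.val = j.val + 1 then (1 : ℝ) else 0) * nHi S +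
        (if x.val = 0 then (1 : ℝ) else 0) * nG S := by
  rw [PA_split]
  by_cases h0 : x.val = 0
  · have h1 : x.val ≠ j.val + 1 := by omega
    rw [if_pos h0, if_neg h1]
    have e1 : ct (pL S) (fun b => rAG k h x (j, Sum.inl b)) = nLo S := by
      unfold nLo
      refine PA_congr _ _ _ fun b => ?_
      unfold rAG
      simp only [h0, true_and]
      constructor
      · rintro (h' | h')
        · exact h'
        · omega
      · intro h'
        exact Or.inl h'
    have e2 : ct (pR S) (fun c => rAG k h x (j, Sum.inr c)) = nG S := by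
      unfold nG
      refine PA_congr _ _ _ fun c => ?_
      unfold rAG
      simp only [h0, true_and]
    rw [e1, e2]
    push_cast
    ring
  · by_cases h1 : x.val = j.val + 1
    · rw [if_neg h0, if_pos h1]
      have e1 : ct (pL S) (fun b => rAG k h x (j, Sum.inl b)) = nHi S := by
        unfold nHi
        refine PA_congr _ _ _ fun b => ?_
        unfold rAG
        simp only
        constructor
        · rintro (h' | h')
          · exact absurd h'.1 h0
          · exact h'.2
        · intro h'
          exact Or.inr ⟨h1, h'⟩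
      have e2 : ct (pR S) (fun c => rAG k h x (j, Sum.inr c)) = 0 := by
        refine PA_none _ _ fun c => ?_
        unfold rAG
        simp only
        exact fun h' => h0 h'.1
      rw [e1, e2]
      push_cast
      ring
    · rw [if_neg h0, if_neg h1]
      have e1 : ct (pL S) (fun b => rAG k h x (j, Sum.inl b)) = 0 := by
        refine PA_none _ _ fun b => ?_
        unfold rAG
        simp only
        rintro (h' | h')
        · exact h0 h'.1
        · exact h1 h'.1
      have e2 : ct (pR S) (fun c => rAG k h x (j, Sum.inr c)) = 0 := by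
        refine PA_none _ _ fun c => ?_
        unfold rAG
        simp only
        exact fun h' => h0 h'.1
      rw [e1, e2]
      push_cast
      ring

theorem thm_PA : St_JN → St_CP → St_PA := by
  intro hJN hCP k h F
  obtain ⟨j1, j2⟩ := hJN _ _ (st k h) (cp (Fin h) (pr k h)) (rAG k h) F
  obtain ⟨c1, c2, c3⟩ := hCP _ _ (pr k h) (pR F)
  have hE : E2 (ag k h) F = E2 (jn (st k h) (cp (Fin h) (pr k h)) (rAG k h)) F := rfl
  refine ⟨?_, ?_, ?_, ?_⟩
  · rw [hE, j1, c1]
    have hs : ∑ x ∈ pL F, (ct (pR F) (rAG k h x) : ℝ) = ∑ j : Fin h,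
        ((ct (pL F) (fun a => a.val = 0) : ℝ) * nLo (sec (pR F) j) +
          (ct (pL F) (fun a => a.val = j.val + 1) : ℝ) * nHi (sec (pR F) j) +
          (ct (pL F) (fun a => a.val = 0) : ℝ) * nG (sec (pR F) j)) := by
      have h1 : ∀ x ∈ pL F, (ct (pR F) (rAG k h x) : ℝ) = ∑ j : Fin h,
          ((if x.val = 0 then (1 : ℝ) else 0) * nLo (sec (pR F) j) +
            (if x.val = j.val + 1 then (1 : ℝ) else 0) * nHi (sec (pR F) j) +
            (if x.val = 0 then (1 : ℝ) else 0) * nG (sec (pR F) j)) := by
        intro x _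
        rw [c2, Nat.cast_sum]
        exact Finset.sum_congr rfl fun j _ => PA_row k h x j _
      rw [Finset.sum_congr rfl h1, Finset.sum_comm]
      refine Finset.sum_congr rfl fun j _ => ?_
      rw [Finset.sum_add_distrib, Finset.sum_add_distrib, ← Finset.sum_mul, ← Finset.sum_mul,
        ← Finset.sum_mul, ← PA_ctR, ← PA_ctR]
    rw [hs, Finset.sum_add_distrib (f := fun j : Fin h => E2 (pr k h) (sec (pR F) j)), ← Finset.mul_sum]
    ring
  · intro j
    unfold ct
    refine Finset.card_le_one.2 fun a ha b hb => ?_
    simp only [Finset.mem_filter] at ha hb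
    exact Fin.ext (ha.2.trans hb.2.symm)
  · have h1 : ∀ j : Fin h, ct (pL F) (fun a => a.val = j.val + 1) =
        ∑ x ∈ pL F, if x.val = j.val + 1 then 1 else 0 := fun j => PA_ct _ _
    rw [Finset.sum_congr rfl fun j _ => h1 j, Finset.sum_comm, PA_ct]
    refine Finset.sum_congr rfl fun x _ => ?_
    by_cases hx : 1 ≤ x.val ∧ x.val ≤ h
    · rw [if_pos hx, Finset.sum_eq_single (⟨x.val - 1, by omega⟩ : Fin h)]
      · rw [if_pos]
        show x.val = x.val - 1 + 1
        omega
      · intro j _ hj
        rw [if_neg]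
        intro h'
        apply hj
        apply Fin.ext
        show j.val = x.val - 1
        omega
      · intro h'
        exact absurd (Finset.mem_univ _) h'
    · rw [if_neg hx]
      refine Finset.sum_eq_zero fun j _ => ?_
      rw [if_neg]
      intro h'
      apply hx
      have := j.2
      omega
  · rw [j2, c3]

end Pool.Agent.BKU
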