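import Pool.Agent.BKU.St

/-!
# Campaign BKU (MP_303581_co): the edges of a pair
-/

set_option autoImplicit false

open Finset

namespace Pool.Agent.BKU

open Classical in
private theorem PP_cnt {m : ℕ} (F : Finset (Fin m)) (p : Fin m → Prop) (a b : ℕ)
    (hp : ∀ x ∈ F, p x → a ≤ x.val ∧ x.val < b) : ct F p ≤ b - a := by
  unfold ct
  have h1 : (F.filter p).image Fin.val ⊆ Finset.Ico a b := by
    intro y hy
    obtain ⟨x, hx, rfl⟩ := Finset.mem_image.1 hy
    obtain ⟨hx1, hx2⟩ := Finset.mem_filter.1 hx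
    exact Finset.mem_Ico.2 (hp x hx1 hx2)
  have h2 := Finset.card_le_card h1
  rw [Finset.card_image_of_injective _ Fin.val_injective, Nat.card_Ico] at h2
  exact h2

open Classical in
private theorem PP_add {V : Type} (F : Finset V) (p q : V → Prop) (h : ∀ x, q x ↔ ¬ p x) :
    ct F p + ct F q = F.card := by
  unfold ct
  have e : F.filter q = F.filter fun x => ¬ p x := Finset.filter_congr fun x _ => h x
  rw [e]
  exact Finset.card_filter_add_card_filter_not p

open Classical in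
private theorem PP_congr {V : Type} (F : Finset V) (p q : V → Prop) (h : ∀ x, p x ↔ q x) :
    ct F p = ct F q := by
  have e : p = q := funext fun x => propext (h x)
  rw [e]

open Classical in
private theorem PP_le {V : Type} (F : Finset V) (p : V → Prop) : ct F p ≤ F.card :=
  Finset.card_filter_le _ _

private theorem PP_sum {V : Type} (F : Finset V) (p : V → Prop) [DecidablePred p] (u v : ℝ) :
    ∑ x ∈ F, (if p x then u else v) = u * (ct F p : ℝ) + v * ((F.card : ℝ) - ct F p) := by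
  have h3 : ∑ x ∈ F, (if p x then (1 : ℝ) else 0) = ct F p := by
    rw [Finset.sum_boole]
    unfold ct
    congr!
  have h4 : ∀ x, (if p x then u else v) = v + (u - v) * (if p x then (1 : ℝ) else 0) := by
    intro x
    split_ifs <;> ring
  rw [Finset.sum_congr rfl fun x _ => h4 x, Finset.sum_add_distrib, ← Finset.mul_sum, h3,
    Finset.sum_const, nsmul_eq_mul]
  ring

theorem thm_PP (hJN : St_JN) (hST : St_ST) : St_PP := by
  intro k h F hk
  obtain ⟨hT, hS⟩ := hST
  obtain ⟨hS1, hS2, hS3, hS4, hS5⟩ := hS k h (pR F) (by omega)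
  obtain ⟨hJ1, hJ2⟩ := hJN (Fin (k - 1)) (Fin k) (⊤ : SimpleGraph (Fin (k - 1))) (st k h)
    (fun b c => (c.val = 0 ∧ b.val + h + 2 < k) ∨ (1 ≤ c.val ∧ c.val ≤ h ∧ k ≤ b.val + h + 2)) F
  have hr : ∀ b : Fin (k - 1), (ct (pR F) (fun c => (c.val = 0 ∧ b.val + h + 2 < k) ∨
      (1 ≤ c.val ∧ c.val ≤ h ∧ k ≤ b.val + h + 2)) : ℝ) =
      if k ≤ b.val + h + 2 then (nN h F : ℝ) else (nG F : ℝ) := by
    intro b
    split_ifs with hb
    · congr 1
      apply PP_congr
      intro c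
      constructor
      · rintro (⟨h1, h2⟩ | ⟨h1, h2, h3⟩)
        · omega
        · exact ⟨h1, h2⟩
      · rintro ⟨h1, h2⟩
        exact Or.inr ⟨h1, h2, hb⟩
    · congr 1
      apply PP_congr
      intro c
      constructor
      · rintro (⟨h1, h2⟩ | ⟨h1, h2, h3⟩)
        · exact h1
        · exact absurd h3 hb
      · intro h1
        exact Or.inl ⟨h1, by omega⟩
  have hsum : ∑ x ∈ pL F, (ct (pR F) (fun c => (c.val = 0 ∧ x.val + h + 2 < k) ∨
      (1 ≤ c.val ∧ c.val ≤ h ∧ k ≤ x.val + h + 2)) : ℝ) =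
      (nN h F : ℝ) * nJ h F + nG F * ((nB F : ℝ) - nJ h F) := by
    rw [Finset.sum_congr rfl fun x _ => hr x]
    exact PP_sum (pL F) (fun b => k ≤ b.val + h + 2) _ _
  refine ⟨?_, ⟨?_, ?_, ?_, hS2, hS3, hS4, hS5, ?_, ?_, ?_⟩, hJ2⟩
  · have e : E2 (pr k h) F = E2 (⊤ : SimpleGraph (Fin (k - 1))) (pL F) + E2 (st k h) (pR F) +
        2 * ∑ x ∈ pL F, (ct (pR F) (fun c => (c.val = 0 ∧ x.val + h + 2 < k) ∨
      (1 ≤ c.val ∧ c.val ≤ h ∧ k ≤ x.val + h + 2)) : ℝ) := hJ1
    rw [e, hsum, hT, hS1]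
    have e1 : (ct (pR F) (fun a => a.val = 0) : ℝ) = nG F := rfl
    have e2 : (ct (pR F) (fun a => 1 ≤ a.val ∧ a.val ≤ h) : ℝ) = nN h F := rfl
    have e3 : ((pR F).card : ℝ) = nC F := rfl
    have e4 : ((pL F).card : ℝ) = nB F := rfl
    rw [e1, e2, e3, e4]
    ring
  · have h1 := PP_cnt (pL F) (fun b => k ≤ b.val + h + 2) (k - 2 - h) (k - 1)
      (fun x _ hx => ⟨by omega, x.isLt⟩)
    have h2 : nJ h F ≤ (k - 1) - (k - 2 - h) := h1
    omega
  · exact PP_le _ _
  · have h1 := PP_cnt (pL F) (fun b => b.val + h + 2 < k) 0 (k - 2 - h)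
      (fun x _ hx => ⟨Nat.zero_le _, by omega⟩)
    have h2 := PP_add (pL F) (fun b => k ≤ b.val + h + 2) (fun b => b.val + h + 2 < k)
      (fun x => by omega)
    have h3 : nJ h F + ct (pL F) (fun b => b.val + h + 2 < k) = nB F := h2
    omega
  · have h2 := PP_add (pL F) (fun b => b.val < k / 2) (fun b => k / 2 ≤ b.val)
      (fun x => by omega)
    exact h2
  · have h1 := PP_cnt (pL F) (fun b => b.val < k / 2) 0 (k / 2)
      (fun x _ hx => ⟨Nat.zero_le _, hx⟩)
    have h2 : nLo F ≤ k / 2 - 0 := h1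
    omega
  · have h1 := PP_cnt (pL F) (fun b => k / 2 ≤ b.val) (k / 2) (k - 1)
      (fun x _ hx => ⟨hx, x.isLt⟩)
    have h2 : nHi F ≤ (k - 1) - k / 2 := h1
    omega

end Pool.Agent.BKU
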