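import Pool.Agent.BKU.St

/-!
# Campaign BKU (MP_303581_co), module ST: the complete graph and the complete graph minus a star
-/

set_option autoImplicit false

open Finset

namespace Pool.Agent.BKU

private theorem ST_ind {V : Type} [DecidableEq V] (F : Finset V) (x : V) (hx : x ∈ F) :
    ∑ y ∈ F, (if x = y then (1 : ℝ) else 0) = 1 := by
  rw [Finset.sum_ite_eq F x (fun _ => (1 : ℝ)), if_pos hx]

private theorem ST_ct {V : Type} (F : Finset V) (p : V → Prop) [DecidablePred p] :
    ∑ y ∈ F, (if p y then (1 : ℝ) else 0) = (ct F p : ℝ) := by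
  unfold ct
  rw [Finset.sum_boole]
  congr

private theorem ST_top (V : Type) (F : Finset V) :
    E2 (⊤ : SimpleGraph V) F = (F.card : ℝ) * F.card - F.card := by
  classical
  unfold E2
  have h1 : ∀ x ∈ F, ∑ y ∈ F, (@ite ℝ ((⊤ : SimpleGraph V).Adj x y) (Classical.propDecidable _) 1 0) =
      (F.card : ℝ) - 1 := by
    intro x hx
    have h2 : ∀ y ∈ F, (@ite ℝ ((⊤ : SimpleGraph V).Adj x y) (Classical.propDecidable _) 1 0) =
        1 - (if x = y then (1 : ℝ) else 0) := by
      intro y _
      by_cases hxy : x = y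
      · have h3 : ¬ (⊤ : SimpleGraph V).Adj x y := by rw [SimpleGraph.top_adj]; exact fun hh => hh hxy
        rw [if_neg h3, if_pos hxy, sub_self]
      · have h3 : (⊤ : SimpleGraph V).Adj x y := by rw [SimpleGraph.top_adj]; exact hxy
        rw [if_pos h3, if_neg hxy, sub_zero]
    rw [Finset.sum_congr rfl h2, Finset.sum_sub_distrib, ST_ind F x hx]
    simp
  rw [Finset.sum_congr rfl h1]
  rw [Finset.sum_const, nsmul_eq_mul]
  ring

private theorem ST_star (k h : ℕ) (F : Finset (Fin k)) :
    E2 (st k h) F = (F.card : ℝ) * F.card - F.card -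
      2 * (ct F (fun a => a.val = 0) : ℝ) * (ct F (fun a => 1 ≤ a.val ∧ a.val ≤ h) : ℝ) := by
  unfold E2
  have h1 : ∀ x ∈ F, ∑ y ∈ F, (@ite ℝ ((st k h).Adj x y) (Classical.propDecidable _) 1 0) =
      (F.card : ℝ) - 1 - (if x.val = 0 then (1 : ℝ) else 0) * (ct F (fun a => 1 ≤ a.val ∧ a.val ≤ h) : ℝ) -
        (if 1 ≤ x.val ∧ x.val ≤ h then (1 : ℝ) else 0) * (ct F (fun a => a.val = 0) : ℝ) := by
    intro x hx
    have h2 : ∀ y ∈ F, (@ite ℝ ((st k h).Adj x y) (Classical.propDecidable _) 1 0) =
        1 - (if x = y then (1 : ℝ) else 0) -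
          (if x.val = 0 then (1 : ℝ) else 0) * (if 1 ≤ y.val ∧ y.val ≤ h then (1 : ℝ) else 0) -
          (if 1 ≤ x.val ∧ x.val ≤ h then (1 : ℝ) else 0) * (if y.val = 0 then (1 : ℝ) else 0) := by
      intro y _
      have hadj : (st k h).Adj x y ↔ x ≠ y ∧ ¬ (x.val = 0 ∧ y.val ≤ h) ∧ ¬ (y.val = 0 ∧ x.val ≤ h) := Iff.rfl
      have hxy : x = y ↔ x.val = y.val := Fin.ext_iff
      by_cases e1 : x = y
      · have e1' := hxy.1 e1
        have a1 : ¬ (st k h).Adj x y := fun hh => (hadj.1 hh).1 e1
        rw [if_neg a1, if_pos e1]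
        by_cases e2 : x.val = 0
        · have a2 : ¬ (1 ≤ y.val ∧ y.val ≤ h) := by omega
          have a3 : ¬ (1 ≤ x.val ∧ x.val ≤ h) := by omega
          rw [if_neg a2, if_neg a3]; ring
        · have a4 : ¬ (y.val = 0) := by omega
          rw [if_neg e2, if_neg a4]; ring
      · have e1' : x.val ≠ y.val := fun hh => e1 (hxy.2 hh)
        rw [if_neg e1]
        by_cases e2 : x.val = 0
        · have a3 : ¬ (1 ≤ x.val ∧ x.val ≤ h) := by omega
          rw [if_pos e2, if_neg a3]
          by_cases e3 : y.val ≤ h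
          · have a5 : 1 ≤ y.val ∧ y.val ≤ h := by omega
            have a1 : ¬ (st k h).Adj x y := fun hh => by
              have hh1 := (hadj.1 hh).2
              omega
            rw [if_neg a1, if_pos a5]; ring
          · have a5 : ¬ (1 ≤ y.val ∧ y.val ≤ h) := by omega
            have a1 : (st k h).Adj x y := hadj.2 ⟨e1, by omega, by omega⟩
            rw [if_pos a1, if_neg a5]; ring
        · rw [if_neg e2]
          by_cases e4 : y.val = 0
          · rw [if_pos e4]
            by_cases e5 : x.val ≤ h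
            · have a5 : 1 ≤ x.val ∧ x.val ≤ h := by omega
              have a1 : ¬ (st k h).Adj x y := fun hh => by
                have hh1 := (hadj.1 hh).2
                omega
              rw [if_neg a1, if_pos a5]; ring
            · have a5 : ¬ (1 ≤ x.val ∧ x.val ≤ h) := by omega
              have a1 : (st k h).Adj x y := hadj.2 ⟨e1, by omega, by omega⟩
              rw [if_pos a1, if_neg a5]; ring
          · rw [if_neg e4]
            have a1 : (st k h).Adj x y := hadj.2 ⟨e1, by omega, by omega⟩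
            rw [if_pos a1]; ring
    rw [Finset.sum_congr rfl h2, Finset.sum_sub_distrib, Finset.sum_sub_distrib, Finset.sum_sub_distrib,
      ST_ind F x hx, ← Finset.mul_sum, ← Finset.mul_sum, ST_ct, ST_ct]
    simp
  rw [Finset.sum_congr rfl h1, Finset.sum_sub_distrib, Finset.sum_sub_distrib, ← Finset.sum_mul,
    ← Finset.sum_mul, ST_ct F (fun a => a.val = 0), ST_ct F (fun a => 1 ≤ a.val ∧ a.val ≤ h)]
  simp
  ring

theorem thm_ST : St_ST := by
  classical
  refine ⟨fun V F => ST_top V F, fun k h F hk => ⟨ST_star k h F, ?_, ?_, ?_, ?_⟩⟩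
  · have hc0 : ct F (fun a => a.val = 0) = (F.filter fun a : Fin k => a.val = 0).card := by unfold ct; congr
    rw [hc0, Finset.card_le_one]
    intro a ha b hb
    rw [Finset.mem_filter] at ha hb
    exact Fin.ext (by rw [ha.2, hb.2])
  · have hc1 : ct F (fun a => 1 ≤ a.val ∧ a.val ≤ h) = (F.filter fun a : Fin k => 1 ≤ a.val ∧ a.val ≤ h).card := by
      unfold ct; congr
    rw [hc1]
    have h1 : (F.filter fun a : Fin k => 1 ≤ a.val ∧ a.val ≤ h).card ≤ (Finset.Icc 1 h).card := by
      apply Finset.card_le_card_of_injOn (fun a => a.val)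
      · intro a ha
        have ha' := (Finset.mem_filter.1 (Finset.mem_coe.1 ha)).2
        exact Finset.mem_coe.2 (Finset.mem_Icc.2 ha')
      · intro a _ b _ hab
        exact Fin.ext hab
    simpa using h1
  · have hc0 : ct F (fun a => a.val = 0) = (F.filter fun a : Fin k => a.val = 0).card := by unfold ct; congr
    have hc1 : ct F (fun a => 1 ≤ a.val ∧ a.val ≤ h) = (F.filter fun a : Fin k => 1 ≤ a.val ∧ a.val ≤ h).card := by
      unfold ct; congr
    rw [hc0, hc1, ← Finset.card_union_of_disjoint]
    · apply Finset.card_le_card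
      intro a ha
      rcases Finset.mem_union.1 ha with h1 | h1
      · exact (Finset.mem_filter.1 h1).1
      · exact (Finset.mem_filter.1 h1).1
    · rw [Finset.disjoint_left]
      intro a ha hb
      have h1 := (Finset.mem_filter.1 ha).2
      have h2 := (Finset.mem_filter.1 hb).2
      omega
  · have h1 : F ⊆ ((F.filter fun a : Fin k => a.val = 0) ∪ (F.filter fun a : Fin k => 1 ≤ a.val ∧ a.val ≤ h)) ∪
        (F.filter fun a : Fin k => h < a.val) := by
      intro a ha
      rcases Nat.lt_or_ge h a.val with h3 | h3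
      · exact Finset.mem_union_right _ (Finset.mem_filter.2 ⟨ha, h3⟩)
      · apply Finset.mem_union_left
        rcases Nat.eq_zero_or_pos a.val with h4 | h4
        · exact Finset.mem_union_left _ (Finset.mem_filter.2 ⟨ha, h4⟩)
        · exact Finset.mem_union_right _ (Finset.mem_filter.2 ⟨ha, h4, h3⟩)
    have h2 := Finset.card_le_card h1
    have h3 := Finset.card_union_le ((F.filter fun a : Fin k => a.val = 0) ∪ (F.filter fun a : Fin k => 1 ≤ a.val ∧ a.val ≤ h))
      (F.filter fun a : Fin k => h < a.val)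
    have h4 := Finset.card_union_le (F.filter fun a : Fin k => a.val = 0) (F.filter fun a : Fin k => 1 ≤ a.val ∧ a.val ≤ h)
    have h5 : (F.filter fun a : Fin k => h < a.val).card ≤ (Finset.Ioo h k).card := by
      apply Finset.card_le_card_of_injOn (fun a => a.val)
      · intro a ha
        have ha' := (Finset.mem_filter.1 (Finset.mem_coe.1 ha)).2
        exact Finset.mem_coe.2 (Finset.mem_Ioo.2 ⟨ha', a.isLt⟩)
      · intro a _ b _ hab
        exact Fin.ext hab
    rw [Nat.card_Ioo] at h5
    have hc0 : ct F (fun a => a.val = 0) = (F.filter fun a : Fin k => a.val = 0).card := by unfold ct; congr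
    have hc1 : ct F (fun a => 1 ≤ a.val ∧ a.val ≤ h) = (F.filter fun a : Fin k => 1 ≤ a.val ∧ a.val ≤ h).card := by
      unfold ct; congr
    rw [hc0, hc1]
    omega

end Pool.Agent.BKU
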