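import Pool.Agent.BKU.St

/-!
# Campaign BKU, module UN: disjoint unions
-/

set_option autoImplicit false

open Finset

namespace Pool.Agent.BKU

private theorem UN_ct' {V : Type} (F : Finset V) (p : V → Prop) (hp : ∀ x, ¬ p x) :
    ct F p = 0 := by
  classical
  unfold ct
  exact Finset.card_eq_zero.2
    (Finset.eq_empty_of_forall_notMem fun x hx => hp x (Finset.mem_filter.1 hx).2)

private theorem UN_ct {V : Type} (F : Finset V) : ct F (fun _ => False) = 0 :=
  UN_ct' F _ fun _ h => h

private theorem UN_pL {X Y : Type} [Fintype X] (F : Finset (X ⊕ Y)) (x : X) :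
    x ∈ pL F ↔ Sum.inl x ∈ F := by
  classical
  unfold pL
  simp

private theorem UN_pR {X Y : Type} [Fintype Y] (F : Finset (X ⊕ Y)) (y : Y) :
    y ∈ pR F ↔ Sum.inr y ∈ F := by
  classical
  unfold pR
  simp

private theorem UN_sec {ι W : Type} [Fintype W] (F : Finset (ι × W)) (i : ι) (w : W) :
    w ∈ sec F i ↔ (i, w) ∈ F := by
  classical
  unfold sec
  simp

/-- (UN) -/
theorem thm_UN : St_JN → St_CP → St_ARD → St_UN := by
  intro hJN hCP hARD
  refine ⟨?_, ?_⟩
  · intro X Y _ _ G H
    refine ⟨?_, ?_⟩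
    · intro k h hh hk hG hH F
      obtain ⟨h1, h2⟩ := hJN X Y G H (fun _ _ => False) F
      have h3 : ∑ x ∈ pL F, (ct (pR F) ((fun _ _ => False : X → Y → Prop) x) : ℝ) = 0 := by
        refine Finset.sum_eq_zero fun x _ => ?_
        have := UN_ct (pR F)
        rw [this]
        simp
      rw [h3, mul_zero, add_zero] at h1
      have h4 := (hARD k h hh hk).2.2.1 (pL F).card (pR F).card
      have h5 := hG (pL F)
      have h6 := hH (pR F)
      rw [h1, h2]
      push_cast
      nlinarith
    · intro a b hG hH I hI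
      obtain ⟨-, h2⟩ := hJN X Y G H (fun _ _ => False) I
      rw [h2]
      refine Nat.add_le_add (hG _ ?_) (hH _ ?_)
      · intro x hx y hy hxy h
        exact hI (Sum.inl x) ((UN_pL I x).1 hx) (Sum.inl y) ((UN_pL I y).1 hy)
          (fun e => hxy (Sum.inl_injective e)) h
      · intro x hx y hy hxy h
        exact hI (Sum.inr x) ((UN_pR I x).1 hx) (Sum.inr y) ((UN_pR I y).1 hy)
          (fun e => hxy (Sum.inr_injective e)) h
  · intro ι W _ _ G
    refine ⟨?_, ?_⟩
    · intro k h hh hk hG F
      obtain ⟨h1, -, h2⟩ := hCP ι W G F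
      have h4 := (hARD k h hh hk).2.2.2 ι univ (fun i => (sec F i).card)
      have h5 : ∑ i, (E2 G (sec F i) + mm k (mu k h) (sec F i).card) ≤
          ∑ i, ((k : ℝ) + 1 - mu k h) * ((sec F i).card : ℝ) :=
        Finset.sum_le_sum fun i _ => hG (sec F i)
      rw [Finset.sum_add_distrib, ← Finset.mul_sum] at h5
      rw [h1, h2]
      push_cast
      linarith
    · intro a hG I hI
      obtain ⟨-, -, h2⟩ := hCP ι W G I
      rw [h2]
      have h3 : ∑ i : ι, (sec I i).card ≤ ∑ _i : ι, a := by
        refine Finset.sum_le_sum fun i _ => hG _ ?_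
        intro x hx y hy hxy h
        exact hI (i, x) ((UN_sec I i x).1 hx) (i, y) ((UN_sec I i y).1 hy)
          (fun e => hxy (congrArg Prod.snd e)) ⟨rfl, h⟩
      refine h3.trans ?_
      rw [Finset.sum_const, smul_eq_mul, Finset.card_univ]

end Pool.Agent.BKU
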