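import Pool.Agent.BKU.JN
import Pool.Agent.BKU.CP
import Pool.Agent.BKU.ST
import Pool.Agent.BKU.PP
import Pool.Agent.BKU.PA
import Pool.Agent.BKU.GB
import Pool.Agent.BKU.AR1
import Pool.Agent.BKU.AR2
import Pool.Agent.BKU.AR3
import Pool.Agent.BKU.ARD
import Pool.Agent.BKU.GP
import Pool.Agent.BKU.GA
import Pool.Agent.BKU.IP
import Pool.Agent.BKU.IA
import Pool.Agent.BKU.UN

/-!
# Campaign BKU: all modules together
-/

set_option autoImplicit false

namespace Pool.Agent.BKU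

theorem all_PP : St_PP := thm_PP thm_JN thm_ST
theorem all_ARD : St_ARD := thm_ARD thm_GB
theorem all_GP : St_GP := thm_GP all_PP (thm_AR1 thm_GB)
theorem all_GA : St_GA := thm_GA thm_ST all_PP (thm_PA thm_JN thm_CP) (thm_AR1 thm_GB) (thm_AR2 thm_GB) (thm_AR3 thm_GB) all_ARD
theorem all_IP : St_IP := thm_IP
theorem all_IA : St_IA := thm_IA thm_JN thm_CP thm_IP
theorem all_UN : St_UN := thm_UN thm_JN thm_CP all_ARD

end Pool.Agent.BKU
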