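import Pool.Agent.TwoDens.Bridge

/-!
# Campaign BKU (MP_303581_co): an explicit graph for the upper half of the residues. Definitions

`δ = s - 2 t` components `ag k h` (one group `D` with `k` vertices and `h` pairs `(B, C)`) and `t - δ h` components `pr k h` (one pair).
`D` and `C` are complete graphs on `k` vertices minus a star with `h` leaves, `B` is complete with `k - 1` vertices.
`μ = 2 h / (k - 2)`.
-/

set_option autoImplicit false

open Finset

namespace Pool.Agent.BKU

open Classical in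
/-- twice the number of the edges inside `F` -/
noncomputable def E2 {V : Type} (G : SimpleGraph V) (F : Finset V) : ℝ := ∑ x ∈ F, ∑ y ∈ F, if G.Adj x y then 1 else 0

open Classical in
/-- the number of elements of `F` with the property `p` -/
noncomputable def ct {V : Type} (F : Finset V) (p : V → Prop) : ℕ := (F.filter p).card

open Classical in
/-- the left part of `F` -/
noncomputable def pL {X Y : Type} [Fintype X] (F : Finset (X ⊕ Y)) : Finset X := univ.filter fun x => Sum.inl x ∈ F

open Classical in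
/-- the right part of `F` -/
noncomputable def pR {X Y : Type} [Fintype Y] (F : Finset (X ⊕ Y)) : Finset Y := univ.filter fun y => Sum.inr y ∈ F

open Classical in
/-- the section of `F` at `i` -/
noncomputable def sec {ι W : Type} [Fintype W] (F : Finset (ι × W)) (i : ι) : Finset W := univ.filter fun w => (i, w) ∈ F

/-- two graphs and the edges `r` between them -/
def jn {X Y : Type} (G : SimpleGraph X) (H : SimpleGraph Y) (r : X → Y → Prop) : SimpleGraph (X ⊕ Y) where
  Adj x y := match x, y with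
    | Sum.inl a, Sum.inl b => G.Adj a b
    | Sum.inr a, Sum.inr b => H.Adj a b
    | Sum.inl a, Sum.inr b => r a b
    | Sum.inr b, Sum.inl a => r a b
  symm := ⟨fun x y h => by
    rcases x with a | a <;> rcases y with b | b
    · exact SimpleGraph.Adj.symm (G := G) h
    · exact h
    · exact h
    · exact SimpleGraph.Adj.symm (G := H) h⟩
  loopless := ⟨fun x h => by
    rcases x with a | a
    · exact G.loopless.irrefl a h
    · exact H.loopless.irrefl a h⟩

/-- disjoint copies of `G` -/
def cp {W : Type} (ι : Type) (G : SimpleGraph W) : SimpleGraph (ι × W) where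
  Adj x y := x.1 = y.1 ∧ G.Adj x.2 y.2
  symm := ⟨fun _ _ h => ⟨h.1.symm, SimpleGraph.Adj.symm (G := G) h.2⟩⟩
  loopless := ⟨fun x h => G.loopless.irrefl x.2 h.2⟩

/-- the complete graph minus the star with the centre `0` and the leaves `1, ..., h` -/
def st (k h : ℕ) : SimpleGraph (Fin k) where
  Adj a b := a ≠ b ∧ ¬ (a.val = 0 ∧ b.val ≤ h) ∧ ¬ (b.val = 0 ∧ a.val ≤ h)
  symm := ⟨fun _ _ h => ⟨h.1.symm, h.2.2, h.2.1⟩⟩
  loopless := ⟨fun _ h => h.1 rfl⟩

/-- a pair: `B` complete with `k - 1` vertices, `C = st k h`; the centre of `C` is adjacent to the first `k - 2 - h` vertices of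
`B`, the leaves to the last `h + 1` vertices -/
def pr (k h : ℕ) : SimpleGraph (Fin (k - 1) ⊕ Fin k) :=
  jn (⊤ : SimpleGraph (Fin (k - 1))) (st k h) fun b c =>
    (c.val = 0 ∧ b.val + h + 2 < k) ∨ (1 ≤ c.val ∧ c.val ≤ h ∧ k ≤ b.val + h + 2)

/-- the edges between `D` and the pairs: the centre is adjacent to the first half of every `B` and to the centre of every `C`, the leaf
`j + 1` to the second half of the `B` of the pair `j` -/
def rAG (k h : ℕ) (a : Fin k) (y : Fin h × (Fin (k - 1) ⊕ Fin k)) : Prop := match y with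
  | (j, Sum.inl b) => (a.val = 0 ∧ b.val < k / 2) ∨ (a.val = j.val + 1 ∧ k / 2 ≤ b.val)
  | (_, Sum.inr c) => a.val = 0 ∧ c.val = 0

/-- a group `D = st k h` and `h` pairs -/
def ag (k h : ℕ) : SimpleGraph (Fin k ⊕ (Fin h × (Fin (k - 1) ⊕ Fin k))) :=
  jn (st k h) (cp (Fin h) (pr k h)) (rAG k h)

/-- `μ = 2 h / (k - 2)` -/
noncomputable def mu (k h : ℕ) : ℝ := 2 * h / ((k : ℝ) - 2)

/-- the required excess -/
noncomputable def mm (k : ℕ) (μ : ℝ) (n : ℕ) : ℝ := if n = 0 then 0 else if n = 1 then k + 1 - μ else 2 * k - 2 * μ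

/-- `e2 F ≤ (k + 1 - μ) |F| - mm |F|` for all `F` -/
def Gd {V : Type} (k : ℕ) (μ : ℝ) (G : SimpleGraph V) : Prop :=
  ∀ F : Finset V, E2 G F + mm k μ F.card ≤ (k + 1 - μ) * F.card

/-- the independence number is at most `a` -/
def Ind {V : Type} (G : SimpleGraph V) (a : ℕ) : Prop :=
  ∀ I : Finset V, (∀ x ∈ I, ∀ y ∈ I, x ≠ y → ¬ G.Adj x y) → I.card ≤ a

section counts

variable {k : ℕ} (h : ℕ) (F : Finset (Fin (k - 1) ⊕ Fin k))

/-- number of vertices in `B` -/
noncomputable def nB (F : Finset (Fin (k - 1) ⊕ Fin k)) : ℕ := (pL F).card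

/-- number of vertices in `C` -/
noncomputable def nC (F : Finset (Fin (k - 1) ⊕ Fin k)) : ℕ := (pR F).card

/-- number of vertices among the last `h + 1` of `B` -/
noncomputable def nJ : ℕ := ct (pL F) fun b => k ≤ b.val + h + 2

/-- `1` if the centre of `C` is in `F` -/
noncomputable def nG (F : Finset (Fin (k - 1) ⊕ Fin k)) : ℕ := ct (pR F) fun c => c.val = 0

/-- number of the leaves of `C` in `F` -/
noncomputable def nN : ℕ := ct (pR F) fun c => 1 ≤ c.val ∧ c.val ≤ h

/-- number of vertices in the first half of `B` -/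
noncomputable def nLo (F : Finset (Fin (k - 1) ⊕ Fin k)) : ℕ := ct (pL F) fun b => b.val < k / 2

/-- number of vertices in the second half of `B` -/
noncomputable def nHi (F : Finset (Fin (k - 1) ⊕ Fin k)) : ℕ := ct (pL F) fun b => k / 2 ≤ b.val

end counts

/-- the relations between the numbers `b = nB`, `c = nC`, `J = nJ`, `γ = nG`, `ν = nN`, `lo = nLo`, `hi = nHi` -/
structure Par (k h b c J γ ν lo hi : ℕ) : Prop where
  J1 : J ≤ h + 1
  Jb : J ≤ b
  bJ : b + h + 2 ≤ k + J
  g1 : γ ≤ 1
  n1 : ν ≤ h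
  gn : γ + ν ≤ c
  cc : c + h + 1 ≤ k + γ + ν
  lh : lo + hi = b
  lo2 : 2 * lo ≤ k
  hi2 : 2 * hi ≤ k

/-- `x (k + 2 - x - μ)` -/
noncomputable def gg (k : ℕ) (μ x : ℝ) : ℝ := x * (k + 2 - x - μ)

/-- the excess of a pair -/
noncomputable def TT (k : ℕ) (μ b c J γ ν : ℝ) : ℝ :=
  gg k μ b + gg k μ c + 2 * γ * ν - 2 * γ * (b - J) - 2 * ν * J

end Pool.Agent.BKU
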