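import Pool.Agent.BKU.St

set_option autoImplicit false

open Finset

namespace Pool.Agent.BKU

theorem thm_JN : St_JN := by
  classical
  intro X Y _ _ G H r F
  have hF : (pL F).disjSum (pR F) = F := by
    ext x
    rcases x with a | b
    · simp [pL]
    · simp [pR]
  constructor
  · have h1 : E2 (jn G H r) F = ∑ x ∈ (pL F).disjSum (pR F), ∑ y ∈ (pL F).disjSum (pR F),
        (if (jn G H r).Adj x y then (1 : ℝ) else 0) := by
      rw [hF]
      unfold E2
      exact sum_congr rfl fun x _ => sum_congr rfl fun y _ => if_congr Iff.rfl rfl rfl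
    rw [h1, sum_disjSum]
    simp only [sum_disjSum, sum_add_distrib]
    have e1 : ∑ x ∈ pL F, ∑ y ∈ pL F, (if (jn G H r).Adj (Sum.inl x) (Sum.inl y) then (1 : ℝ) else 0) = E2 G (pL F) := by
      unfold E2
      exact sum_congr rfl fun x _ => sum_congr rfl fun y _ => if_congr Iff.rfl rfl rfl
    have e2 : ∑ x ∈ pR F, ∑ y ∈ pR F, (if (jn G H r).Adj (Sum.inr x) (Sum.inr y) then (1 : ℝ) else 0) = E2 H (pR F) := by
      unfold E2
      exact sum_congr rfl fun x _ => sum_congr rfl fun y _ => if_congr Iff.rfl rfl rfl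
    have e3 : ∑ x ∈ pL F, ∑ y ∈ pR F, (if (jn G H r).Adj (Sum.inl x) (Sum.inr y) then (1 : ℝ) else 0) =
        ∑ x ∈ pL F, (ct (pR F) (r x) : ℝ) := by
      refine sum_congr rfl fun x _ => ?_
      unfold ct
      rw [card_filter]
      push_cast
      exact sum_congr rfl fun y _ => if_congr Iff.rfl rfl rfl
    have e4 : ∑ x ∈ pR F, ∑ y ∈ pL F, (if (jn G H r).Adj (Sum.inr x) (Sum.inl y) then (1 : ℝ) else 0) =
        ∑ x ∈ pL F, (ct (pR F) (r x) : ℝ) := by
      rw [sum_comm, ← e3]
      exact sum_congr rfl fun x _ => sum_congr rfl fun y _ => if_congr Iff.rfl rfl rfl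
    rw [e1, e2, e3, e4]
    ring
  · calc F.card = ((pL F).disjSum (pR F)).card := by rw [hF]
      _ = (pL F).card + (pR F).card := card_disjSum _ _

end Pool.Agent.BKU
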