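import Pool.Agent.BKU.Defs

/-!
# Campaign BKU (MP_303581_co): statements of the modules

Every `St_X` is a statement with its proof in the docstring. A module proves `thm_X : St_A → St_B → ... → St_X` (the statements named in
the docstring are hypotheses; leave out what is not used). All numbers were checked by a program for `h ≤ 4` (all values of the
parameters, several `k`). `μ = mu k h = 2 h / (k - 2)`, so `μ (k - 2) = 2 h`, `μ k = 2 h + 2 μ`.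
-/

set_option autoImplicit false

open Finset

namespace Pool.Agent.BKU

/-! ### Counting edges -/

/-- (JN) PROOF. Write `E2 G F = ∑ x, ∑ y, if x ∈ F ∧ y ∈ F ∧ Adj x y then 1 else 0` (sums over the whole types), split with
`Fintype.sum_sum_type`; the two mixed sums are equal (`Finset.sum_comm`). `F.card` in the same way. -/
def St_JN : Prop := ∀ (X Y : Type) [Fintype X] [Fintype Y] (G : SimpleGraph X) (H : SimpleGraph Y) (r : X → Y → Prop)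
    (F : Finset (X ⊕ Y)),
  E2 (jn G H r) F = E2 G (pL F) + E2 H (pR F) + 2 * ∑ x ∈ pL F, (ct (pR F) (r x) : ℝ) ∧
  F.card = (pL F).card + (pR F).card

/-- (CP) PROOF. As (JN) with `Fintype.sum_prod_type`; (2) is (1) for counts: `ct F p = ∑ i, ct (sec F i) (fun w => p (i, w))`. -/
def St_CP : Prop := ∀ (ι W : Type) [Fintype ι] [Fintype W] (G : SimpleGraph W) (F : Finset (ι × W)),
  E2 (cp ι G) F = ∑ i, E2 G (sec F i) ∧
  (∀ p : ι × W → Prop, ct F p = ∑ i, ct (sec F i) (fun w => p (i, w))) ∧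
  F.card = ∑ i, (sec F i).card

/-- (ST) The complete graph and the complete graph minus a star. PROOF. (1) `Adj x y ↔ x ≠ y`. (2) for `x, y ∈ F`: the indicator of `Adj x y` is
`1 - [x = y] - [x = 0] [1 ≤ y ≤ h] - [y = 0] [1 ≤ x ≤ h]`; sum over `x, y ∈ F` (`Finset.sum_mul_sum`). (3) the vertices `0`; `1, ..., h`; and the other `k - 1 - h` ones. -/
def St_ST : Prop := (∀ (V : Type) (F : Finset V), E2 (⊤ : SimpleGraph V) F = (F.card : ℝ) * F.card - F.card) ∧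
  ∀ (k h : ℕ) (F : Finset (Fin k)), h + 1 ≤ k →
    E2 (st k h) F = (F.card : ℝ) * F.card - F.card -
      2 * (ct F (fun a => a.val = 0) : ℝ) * (ct F (fun a => 1 ≤ a.val ∧ a.val ≤ h) : ℝ) ∧
    ct F (fun a => a.val = 0) ≤ 1 ∧ ct F (fun a => 1 ≤ a.val ∧ a.val ≤ h) ≤ h ∧
    ct F (fun a => a.val = 0) + ct F (fun a => 1 ≤ a.val ∧ a.val ≤ h) ≤ F.card ∧
    F.card + h + 1 ≤ k + ct F (fun a => a.val = 0) + ct F (fun a => 1 ≤ a.val ∧ a.val ≤ h)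

/-- (PP) The edges of a pair. Uses JN, ST. PROOF. JN for `pr k h`: for `b` with `b + h + 2 < k` the number of `c ∈ pR F` with `r b c` is
`nG F`, for the other `b` it is `nN h F`; there are `nB F - nJ h F` and `nJ h F` of these `b` in `pL F`. `Par`: count the possible places: `h + 1`
places with `k ≤ b + h + 2`, `k - 2 - h` places with `b + h + 2 < k`, `k / 2` places with `b < k / 2`, `k - 1 - k / 2` places with `k / 2 ≤ b`; the rest is ST. -/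
def St_PP : Prop := ∀ (k h : ℕ) (F : Finset (Fin (k - 1) ⊕ Fin k)), h + 2 ≤ k →
  E2 (pr k h) F = (nB F : ℝ) * nB F - nB F + ((nC F : ℝ) * nC F - nC F) - 2 * nG F * nN h F +
    2 * (nG F * ((nB F : ℝ) - nJ h F) + nN h F * nJ h F) ∧
  Par k h (nB F) (nC F) (nJ h F) (nG F) (nN h F) (nLo F) (nHi F) ∧
  F.card = nB F + nC F

/-- (PA) The edges of `ag k h`. Uses JN, CP. PROOF. JN and CP give `E2 (st k h) D + ∑ E2 (pr k h) (S j) + 2 ∑_{x ∈ D} ct (pR F) (rAG k h x)`,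
`D = pL F`, `S j = sec (pR F) j`. By CP (2) `ct (pR F) (rAG k h x) = ∑ j, ct (S j) (fun w => rAG k h x (j, w))`, and
`ct (S j) (fun w => rAG k h x (j, w)) = [x = 0] (nLo (S j) + nG (S j)) + [x = j + 1] nHi (S j)`; sum over `x ∈ D`. `z j ≤ 1` since at most one `x` has
`x.val = j + 1`; `∑ z j` is the number of `x ∈ D` with `1 ≤ x ≤ h`. -/
def St_PA : Prop := ∀ (k h : ℕ) (F : Finset (Fin k ⊕ (Fin h × (Fin (k - 1) ⊕ Fin k)))),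
  E2 (ag k h) F = E2 (st k h) (pL F) + ∑ j : Fin h, (E2 (pr k h) (sec (pR F) j) +
    2 * ((ct (pL F) (fun a => a.val = 0) : ℝ) * nLo (sec (pR F) j) +
      (ct (pL F) (fun a => a.val = j.val + 1) : ℝ) * nHi (sec (pR F) j) +
      (ct (pL F) (fun a => a.val = 0) : ℝ) * nG (sec (pR F) j))) ∧
  (∀ j : Fin h, ct (pL F) (fun a => a.val = j.val + 1) ≤ 1) ∧
  ∑ j : Fin h, ct (pL F) (fun a => a.val = j.val + 1) = ct (pL F) (fun a => 1 ≤ a.val ∧ a.val ≤ h) ∧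
  F.card = (pL F).card + ∑ j : Fin h, (sec (pR F) j).card

/-! ### Arithmetic. `1 ≤ h`, `100 (h + 2) ^ 2 ≤ k`, `μ = mu k h`. -/

/-- (GB) PROOF. `μ (k - 2) = 2 h`; all functions are concave in `x`, so look at the ends (`nlinarith` with the product of
`x - (left end)` and `(right end) - x`, and `μ x ≤ μ (k - 1) = 2 h + μ`). `gg k μ (k - 1) = 3 k - 3 - 2 h - μ`, `gg k μ k = k (2 - μ) = 2 k - 2 h - 2 μ`;
`(k - 2) (2 - μ) = 2 k - 4 - 2 h`, `(k - 1) (1 - μ) = k - 1 - 2 h - μ`. -/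
def St_GB : Prop := ∀ k h : ℕ, 1 ≤ h → 100 * (h + 2) ^ 2 ≤ k →
  0 < mu k h ∧ mu k h ≤ 1 / 8 ∧ mu k h * ((k : ℝ) - 2) = 2 * h ∧
  (∀ x : ℝ, 1 ≤ x → x ≤ (k : ℝ) - 1 → (k : ℝ) + 1 - mu k h ≤ gg k (mu k h) x) ∧
  (∀ x : ℝ, 2 ≤ x → x ≤ (k : ℝ) - 1 → 2 * (k : ℝ) - 2 * mu k h ≤ gg k (mu k h) x) ∧
  gg k (mu k h) k = 2 * k - 2 * h - 2 * mu k h ∧
  (∀ x : ℝ, 1 ≤ x → x ≤ (k : ℝ) - 2 → (k : ℝ) - 1 - mu k h ≤ x * (k - x - mu k h)) ∧
  (∀ x : ℝ, 2 ≤ x → x ≤ (k : ℝ) - 2 → 2 * (k : ℝ) - 4 - 2 * h - 2 * mu k h ≤ x * (k - x - mu k h)) ∧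
  ((k : ℝ) - 1) * (1 - mu k h) = k - 1 - 2 * h - mu k h

/-- (AR1) Uses GB. PROOF. Write `T` for the right side. `γ = ν = 0`: `c ≤ k - 1 - h`, `T = g b + g c`, GB (both `≥ 1`: `2 (k + 1 - μ)`; one is zero:
`k + 1 - μ` or `2 k - 2 μ`). `γ = 0`, `ν ≥ 1`: `1 ≤ c ≤ k - 1`; `b = 0`: `J = 0`, `T = g c`. `b ≥ 1`: if `ν = 1`, `b = 1`: `J ≤ 1` and
`T ≥ 2 (k + 1 - μ) - 2`; if `ν = 1`, `b ≥ 2`: `T ≥ (2 k - 2 μ) + (k + 1 - μ) - 2 (h + 1)`; if `ν ≥ 2` then `c ≥ 2` and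
`T ≥ (2 k - 2 μ) + (k + 1 - μ) - 2 h (h + 1)`. `γ = 1`, `ν = 0`: `1 ≤ c ≤ k - h`; `b = 0`: `T = g c`. `b ≥ 1`: `T = b (k - b - μ) + 2 J + g c`; `b ≤ k - 2`: `≥ (k - 1 - μ) + (k + 1 - μ)`;
`b = k - 1`: `J = h + 1`, `T ≥ (k - 1 - 2 h - μ) + 2 h + 2 + (k + 1 - μ)`. `γ = 1`, `ν ≥ 1`: `c ≥ 2` and `g c + 2 ν ≥ 2 k - 2 μ` (for `c = k`
it is `ν = h`); `b = 0` is clear, otherwise `T ≥ 2 k - 2 μ + b (k - b - μ) - 2 (ν - 1) J` and `b (k - b - μ) ≥ k - 1 - 2 h - μ ≥ 2 h (h + 1)`. -/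
def St_AR1 : Prop := ∀ k h b c J γ ν lo hi : ℕ, 1 ≤ h → 100 * (h + 2) ^ 2 ≤ k → Par k h b c J γ ν lo hi →
  mm k (mu k h) (b + c) ≤ TT k (mu k h) b c J γ ν

/-- (AR2) Uses GB. PROOF. Both left sides are `≥ T - min (2 b) k - 2 γ` (only the second one without `- 2 γ`), `T = TT ...`. `γ = ν = 0`: `b = 0`: `g c ≥ k + 1 - μ`. `b = 1`: `(k + 1 - μ) - 2 + g c`, `g c ≥ 0`.
`b ≥ 2`: `2 k - 2 μ - k + g c`. `γ = 0`, `ν ≥ 1` (`1 ≤ c ≤ k - 1`): `b = 0` is clear (`J = 0`), `b = 1`: `(k + 1 - μ) - 2 + (g c - 2 ν J)`, `J ≤ 1`, `b ≥ 2`: `(2 k - 2 μ) - k + (k + 1 - μ) - 2 h (h + 1)`.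
`γ = 1`, `ν = 0` (`1 ≤ c ≤ k - h`): `b = 0`: `g c - 2`. `b ≥ 1`: `g c ≥ k + 1 - μ`, so it suffices that `b (k + 2 - b - μ) - 2 (b - J) - min (2 b) k ≥ 0`: `2 b ≤ k`: `b (k - b - μ - 2) + 2 J ≥ 0`;
`k < 2 b`, `b ≤ k - 2`: `b (k - b - μ) - k ≥ k - 4 - 2 h - 2 μ`; `b = k - 1`: `J = h + 1`, `(k - 1 - 2 h - μ) + 2 (h + 1) - k = 1 - μ`. `γ = 1`, `ν ≥ 1`: `g c + 2 ν ≥ 2 k - 2 μ` and
`T - min (2 b) k - 2 ≥ 2 k - 2 μ + b (k - b - μ) - 2 (ν - 1) J - k - 2` (`b = 0`: `2 k - 2 μ - 2`; `b ≤ k - 2` or `b = k - 1`: GB). -/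
def St_AR2 : Prop := ∀ k h b c J γ ν lo hi : ℕ, 1 ≤ h → 100 * (h + 2) ^ 2 ≤ k → Par k h b c J γ ν lo hi → 1 ≤ b + c →
  (k : ℝ) - 1 - mu k h ≤ TT k (mu k h) b c J γ ν - 2 * lo - 2 * γ ∧
  (k : ℝ) - 1 - mu k h ≤ TT k (mu k h) b c J γ ν - 2 * hi

/-- (AR3) Uses GB. PROOF. `γ = ν = 0`: `b (k - b - μ) + g c ≥ 0` (`b ≤ k - 1`). `γ = 0`, `ν ≥ 1`: `b (k - b - μ) + g c - 2 ν J ≥ (k + 1 - μ) - 2 h (h + 1)`. `γ = 1`, `ν = 0`:
`g c - 2 ≥ k - 1 - μ` and `b (k - b - 2 - μ) + 2 J ≥ -(k - 3 + μ)`: `b ≤ k - 3`: `≥ 0`; `b = k - 2`: `J ≥ h`, `-(k - 2) μ + 2 J = 2 J - 2 h ≥ 0`; `b = k - 1`: `J = h + 1`, `-(k - 1) (1 + μ) + 2 (h + 1) = -(k - 3 + μ)`.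
`γ = 1`, `ν ≥ 1`: `g c + 2 ν ≥ 2 k - 2 μ`, so it is at least `2 k - 2 μ - 2 - (k - 1) (1 + μ) - 2 h (h + 1)`. -/
def St_AR3 : Prop := ∀ k h b c J γ ν lo hi : ℕ, 1 ≤ h → 100 * (h + 2) ^ 2 ≤ k → Par k h b c J γ ν lo hi →
  0 ≤ TT k (mu k h) b c J γ ν - 2 * b - 2 * γ

/-- (ARD) The group `D` and the function `mm`. Uses GB. PROOF. (1) `a = k`: `d = 1`, `n = h`, GB (6). `a ≤ k - 1`: GB (5). (2) `d + n ≤ 1`, so `d n = 0`.
(3) by cases (`μ ≤ k + 1`). (4) induction over the set, (3). -/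
def St_ARD : Prop := ∀ k h : ℕ, 1 ≤ h → 100 * (h + 2) ^ 2 ≤ k →
  (∀ a d n : ℕ, d ≤ 1 → n ≤ h → d + n ≤ a → a + h + 1 ≤ k + d + n → 2 ≤ a →
    2 * (k : ℝ) - 2 * mu k h ≤ gg k (mu k h) a + 2 * d * n) ∧
  (∀ d n : ℕ, d + n ≤ 1 → gg k (mu k h) (1 : ℕ) + 2 * d * n = (k : ℝ) + 1 - mu k h) ∧
  (∀ m n : ℕ, mm k (mu k h) (m + n) ≤ mm k (mu k h) m + mm k (mu k h) n) ∧
  (∀ (ι : Type) (A : Finset ι) (f : ι → ℕ), mm k (mu k h) (∑ i ∈ A, f i) ≤ ∑ i ∈ A, mm k (mu k h) (f i))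

/-! ### The excess -/

/-- (GP) Uses PP, AR1. PROOF. `(k + 1 - μ) (b + c) - E2 = TT` by PP (`gg x = (k + 1 - μ) x - (x x - x)`), and AR1. -/
def St_GP : Prop := ∀ k h : ℕ, 1 ≤ h → 100 * (h + 2) ^ 2 ≤ k → Gd k (mu k h) (pr k h)

/-- (GA) Uses ST, PP, PA, AR1, AR2, AR3, ARD. PROOF. Let `D = pL F`, `S j = sec (pR F) j`, `a = D.card`, `d, n` as in ST, `z j` as in PA, `T j = TT ...` for `S j`. By PA, ST, PP
`(k + 1 - μ) |F| - E2 F = (g a + 2 d n) + ∑ j, (T j - 2 d lo - 2 (z j) hi - 2 d γ)`. The summand `s j` is `≥ 0` always (AR1 if `d = z j = 0`, AR2 if exactly one is `1` and `S j` is not empty, it is `0` if `S j` is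
empty, AR3 with `lo + hi = b` if `d = z j = 1`), `≥ k - 1 - μ` if `S j` is not empty and not `d = z j = 1`, `≥ mm (b + c)` if `d = z j = 0`. `a ≥ 2`: ARD (1) and `mm ≤ 2 k - 2 μ`. `a = 1`: `d + n ≤ 1`, so never `d = z j = 1`;
if all `S j` are empty `|F| = 1`, ARD (2); otherwise `(k + 1 - μ) + (k - 1 - μ)`. `a = 0`: ARD (4). -/
def St_GA : Prop := ∀ k h : ℕ, 1 ≤ h → 100 * (h + 2) ^ 2 ≤ k → Gd k (mu k h) (ag k h)

/-! ### Independent sets -/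

/-- (IP) PROOF. `I ⊆ Fin (k - 1) ⊕ Fin k`: at most one element in `B`. Two elements in `C` are the centre `0` and a leaf, then there is no element in `B`
(`b + h + 2 < k` or not); three elements in `C` are impossible. (2) two elements of `C` without the centre are adjacent. -/
def St_IP : Prop := ∀ k h : ℕ, h + 2 ≤ k → Ind (pr k h) 2 ∧
  ∀ I : Finset (Fin (k - 1) ⊕ Fin k), (∀ x ∈ I, ∀ y ∈ I, x ≠ y → ¬ (pr k h).Adj x y) →
    (∀ b, Sum.inl b ∉ I) → (∀ c : Fin k, c.val = 0 → Sum.inr c ∉ I) → I.card ≤ 1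

/-- (IA) Uses JN (2), CP (3), IP. PROOF. `I` independent, `D = pL I`, `S j = sec (pR I) j` independent in `pr k h`, so `≤ 2`. `D.card ≤ 1`: `1 + 2 h`. Otherwise `D = {0, j₀ + 1}` with `j₀ < h` (`D` is independent in `st k h`);
every `b` in the pair `j₀` is adjacent to `0` or to `j₀ + 1`, and its centre is adjacent to `0`; by IP (2) `(S j₀).card ≤ 1`, total `2 + 1 + 2 (h - 1)`. -/
def St_IA : Prop := ∀ k h : ℕ, h + 2 ≤ k → Ind (ag k h) (2 * h + 1)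

/-- (UN) Disjoint unions. Uses JN, CP, ARD. PROOF. JN, CP (the sum of the cross edges is zero) and ARD (3), (4); independent sets: the parts and sections are
independent, add the numbers. -/
def St_UN : Prop :=
  (∀ (X Y : Type) [Fintype X] [Fintype Y] (G : SimpleGraph X) (H : SimpleGraph Y),
    (∀ k h : ℕ, 1 ≤ h → 100 * (h + 2) ^ 2 ≤ k → Gd k (mu k h) G → Gd k (mu k h) H →
      Gd k (mu k h) (jn G H fun _ _ => False)) ∧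
    ∀ a b : ℕ, Ind G a → Ind H b → Ind (jn G H fun _ _ => False) (a + b)) ∧
  ∀ (ι W : Type) [Fintype ι] [Fintype W] (G : SimpleGraph W),
    (∀ k h : ℕ, 1 ≤ h → 100 * (h + 2) ^ 2 ≤ k → Gd k (mu k h) G → Gd k (mu k h) (cp ι G)) ∧
    ∀ a : ℕ, Ind G a → Ind (cp ι G) (Fintype.card ι * a)

end Pool.Agent.BKU
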